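import Pool.Agent.U663.SD.Ratio
import Pool.Agent.N401.QP_FINJ

/-!
# Anatomy of the exceptions (helper663): `q` points of the projective line over a number field
-/

set_option autoImplicit false
set_option linter.unusedSectionVars false

namespace Pool.Agent.U663.SD

open NumberField IsDedekindDomain Finset Filter Topology Module
open Pool.Agent.H691R3 Pool.Agent.W223.AK Pool.Agent.N906.KG Pool.Agent.N575.QP
open Pool.Agent.N170.KG Pool.Agent.N401.QP

variable {K : Type} [Field K] [NumberField K] {q : ℕ}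

/-- the sum of the local heights at the primes outside `T` -/
noncomputable def ful (T : Set (Pr K)) (a : Fin 2 → K) (p : Projectivization K (Fin 2 → K)) : ℝ :=
  ∑ᶠ (v : HeightOneSpectrum (𝓞 K)) (_ : v ∉ T), lv v a p

/-- the primes outside `T` at which the local height is at least `2 log N(v) / d` -/
def sqs (T : Set (Pr K)) (a : Fin 2 → K) (p : Projectivization K (Fin 2 → K)) : Set (Pr K) :=
  {v | v ∉ T ∧ 2 * (Real.log (Ideal.absNorm v.asIdeal : ℝ) / (Module.finrank ℚ K : ℝ)) ≤ lv v a p}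

section

variable {T : Set (Pr K)} {S : Finset (Pr K)} (hTS : T ⊆ ↑S) {α : Fin q → Fin 2 → K}
  (hα : ∀ i, α i ≠ 0) {p : Projectivization K (Fin 2 → K)} (hp : p.rep 1 ≠ 0)
  (hoP : Off1 α p) {A : Fin q → Idl K} (hA : IsP S (pr α) (p.rep 0 / p.rep 1) A)

include hα hp hoP in
theorem lv_nonneg (l : Fin q) (v : Pr K) : 0 ≤ lv v (α l) p := by
  have h1 : 0 ≤ lv v (α l) p * finrank ℚ K := by
    rw [lv_eq v _ hp]
    refine lamF_nonneg v (aff_ne_zero _) (Pool.Agent.R365.QP.pr_ne (hα l)) ?_
    have := of_rep hp hoP l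
    show p.rep 0 / p.rep 1 * α l 1 - 1 * α l 0 ≠ 0
    rw [one_mul]
    exact this
  exact nonneg_of_mul_nonneg_left h1 fin_pos

include hp hA in
theorem lv_out (l : Fin q) {v : Pr K} (hv : v ∉ S) :
    lv v (α l) p = A l v * Real.log (Nv v) / finrank ℚ K := by
  rw [eq_div_iff (fin_pos (K := K)).ne', lv_eq v _ hp]
  exact hA.2 l v hv

include hTS hα hp hoP hA in
theorem ful_ge (l : Fin q) : len (A l) ≤ finrank ℚ K * ful T (α l) p := by
  classical
  have hd : (0 : ℝ) < finrank ℚ K := fin_pos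
  obtain ⟨m, hm⟩ : ∃ m : Pr K → ℝ, m = fun v => if v ∉ T then lv v (α l) p else 0 := ⟨_, rfl⟩
  have hm0 : ∀ v, 0 ≤ m v := by
    intro v
    rw [hm]
    simp only
    by_cases h : v ∈ T
    · simp [h]
    · simpa [h] using lv_nonneg hα hp hoP l v
  have hout : ∀ v, v ∉ S → m v = A l v * Real.log (Nv v) / finrank ℚ K := by
    intro v hv
    have hvT : v ∉ T := fun h => hv (hTS h)
    rw [hm]
    simp only [hvT, not_false_eq_true, if_true]
    exact lv_out hp hA l hv
  have hsupp : Function.support m ⊆ (((A l).support ∪ S : Finset (Pr K)) : Set (Pr K)) := by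
    intro v hv
    rw [coe_union]
    by_contra hcon
    rw [Set.mem_union, not_or] at hcon
    have h1 := hout v hcon.2
    rw [Finsupp.notMem_support_iff.1 (fun h => hcon.1 (mem_coe.2 h)), Nat.cast_zero, zero_mul,
      zero_div] at h1
    exact hv h1
  have hful : ful T (α l) p = ∑ v ∈ (A l).support ∪ S, m v := by
    unfold ful
    rw [← finsum_eq_sum_of_support_subset _ hsupp]
    refine finsum_congr fun v => ?_
    rw [finsum_eq_if, hm]
  have hdis : Disjoint (A l).support S := by
    rw [Finset.disjoint_left]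
    intro v hv hvS
    exact Finsupp.mem_support_iff.1 hv (hA.1 l v hvS)
  rw [hful, sum_union hdis, mul_add, mul_sum]
  have h1 : ∑ v ∈ (A l).support, (finrank ℚ K : ℝ) * m v = len (A l) := by
    unfold len
    refine sum_congr rfl fun v hv => ?_
    rw [hout v (Finset.disjoint_left.1 hdis hv)]
    field_simp
  rw [h1]
  have h2 : 0 ≤ (finrank ℚ K : ℝ) * ∑ v ∈ S, m v :=
    mul_nonneg hd.le (sum_nonneg fun v _ => hm0 v)
  linarith

include hTS hp hA in
theorem sqs_out (l : Fin q) {v : Pr K} (hv : v ∉ S) :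
    v ∈ sqs T (α l) p ↔ v ∈ (sqf (A l)).support := by
  have hvT : v ∉ T := fun h => hv (hTS h)
  have hd : (0 : ℝ) < finrank ℚ K := fin_pos
  have hl := log_Nv_pos v
  have e : Real.log (Ideal.absNorm v.asIdeal : ℝ) = Real.log (Nv v) := rfl
  unfold sqs
  rw [Set.mem_ofPred_eq, lv_out hp hA l hv, Finsupp.mem_support_iff, sqf_apply, e, ← mul_div_assoc,
    div_le_div_iff_of_pos_right hd, mul_le_mul_iff_left₀ hl]
  constructor
  · rintro ⟨-, h⟩
    have h2 : 2 ≤ A l v := by exact_mod_cast h
    split_ifs with h3 <;> omega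
  · intro h
    refine ⟨hvT, ?_⟩
    split_ifs at h with h3
    · exact absurd rfl h
    · have h4 : 2 ≤ A l v := by omega
      exact_mod_cast h4

open Classical in
include hTS hp hA in
theorem sqs_sub (l : Fin q) : sqs T (α l) p ⊆ (((sqf (A l)).support ∪ S : Finset (Pr K)) : Set _) := by
  intro v hv
  rw [coe_union, Set.mem_union]
  by_cases h : v ∈ S
  · exact Or.inr h
  · exact Or.inl (mem_coe.2 ((sqs_out hTS hp hA l h).1 hv))

include hA in
theorem sqf_off (l : Fin q) {v : Pr K} (hv : v ∈ (sqf (A l)).support) : v ∉ S := by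
  intro h
  have h1 := hA.1 l v h
  rw [Finsupp.mem_support_iff, sqf_apply, h1] at hv
  simp at hv

include hTS hp hA in
theorem sqs_finite (l : Fin q) : (sqs T (α l) p).Finite :=
  (Finset.finite_toSet _).subset (sqs_sub hTS hp hA l)

include hTS hp hA in
theorem sqs_card (l : Fin q) : ((sqf (A l)).support.card : ℝ) ≤ (sqs T (α l) p).ncard ∧
    ((sqs T (α l) p).ncard : ℝ) ≤ (sqf (A l)).support.card + S.card := by
  classical
  constructor
  · have h1 : (((sqf (A l)).support : Finset (Pr K)) : Set (Pr K)) ⊆ sqs T (α l) p := by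
      intro v hv
      exact (sqs_out hTS hp hA l (sqf_off hA l (mem_coe.1 hv))).2 (mem_coe.1 hv)
    have h2 := Set.ncard_le_ncard h1 (sqs_finite hTS hp hA l)
    rw [Set.ncard_coe_finset] at h2
    exact_mod_cast h2
  · have h2 := Set.ncard_le_ncard (sqs_sub hTS hp hA l) (Finset.finite_toSet _)
    rw [Set.ncard_coe_finset] at h2
    exact_mod_cast h2.trans (card_union_le _ _)

include hTS hp hA in
theorem sqs_log (l : Fin q) : ∑ᶠ (v : Pr K) (_ : v ∈ sqs T (α l) p),
    Real.log (Ideal.absNorm v.asIdeal : ℝ) ≤ rl (sqf (A l)) + ∑ v ∈ S, Real.log (Nv v) := by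
  classical
  have hfin := sqs_finite hTS hp hA l
  rw [← hfin.coe_toFinset, finsum_mem_coe_finset]
  have hsub : hfin.toFinset ⊆ (sqf (A l)).support ∪ S := by
    intro v hv
    rw [Set.Finite.mem_toFinset] at hv
    exact mem_coe.1 (sqs_sub hTS hp hA l hv)
  have h1 : ∑ v ∈ hfin.toFinset, Real.log (Ideal.absNorm v.asIdeal : ℝ) ≤
      ∑ v ∈ (sqf (A l)).support ∪ S, Real.log (Nv v) :=
    Finset.sum_le_sum_of_subset_of_nonneg hsub fun v _ _ => (log_Nv_pos v).le
  refine h1.trans ?_
  have hdis : Disjoint (sqf (A l)).support S :=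
    Finset.disjoint_left.2 fun v hv hvS => sqf_off hA l hv hvS
  rw [sum_union hdis]
  rfl

end

end Pool.Agent.U663.SD
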