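import Pool.Agent.U663.SD.Cls

/-!
# Anatomy of the exceptions (helper663): asymptotics and elementary inequalities
-/

set_option autoImplicit false
set_option linter.unusedSectionVars false

namespace Pool.Agent.U663.SD

open NumberField IsDedekindDomain Finset Filter Topology Pool.Agent.H691R3 Pool.Agent.W223.AK
open Pool.Agent.N906.NT (Cx cst)
open Pool.Agent.N906.KG Pool.Agent.N575.QP

variable {K : Type} [Field K] [NumberField K] {q : ℕ}

theorem YY_upper {w η : ℝ} (hw : 0 < w) (hη : 0 < η) :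
    ∀ᶠ X : ℝ in atTop, ∀ y : ℝ, w ≤ y →
      YY (y * (X + 1)) ≤ (1 + η) * (√y * √(2 * X / Real.log X)) := by
  obtain ⟨δ, hδ⟩ : ∃ δ : ℝ, δ = η / (2 + η) := ⟨_, rfl⟩
  have hδ0 : 0 < δ := by rw [hδ]; positivity
  have hδ1 : δ < 1 := by rw [hδ, div_lt_one (by positivity)]; linarith
  have hδ2 : 1 + δ = (1 + η) * (1 - δ) := by
    rw [hδ]; field_simp; ring
  filter_upwards [Real.tendsto_log_atTop.eventually_ge_atTop (-Real.log w / δ),
    eventually_ge_atTop (1 / δ), eventually_ge_atTop (1 : ℝ),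
    Real.tendsto_log_atTop.eventually_ge_atTop 1] with X h1 h2 h3 h4 y hy
  have hy0 : 0 < y := by linarith
  have hX0 : 0 < X := by linarith
  have hl : 0 < Real.log X := by linarith
  have h5 : (1 - δ) * Real.log X ≤ Real.log (y * (X + 1)) := by
    have h6 : Real.log (y * X) ≤ Real.log (y * (X + 1)) :=
      Real.log_le_log (by positivity) (by nlinarith)
    rw [Real.log_mul hy0.ne' hX0.ne'] at h6
    have h7 : Real.log w ≤ Real.log y := Real.log_le_log hw hy
    rw [div_le_iff₀ hδ0] at h1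
    linarith
  have h6 : X + 1 ≤ (1 + δ) * X := by
    rw [div_le_iff₀ hδ0] at h2
    nlinarith
  have h7 : 0 < (1 - δ) * Real.log X := mul_pos (by linarith) hl
  have h8 : 2 * (y * (X + 1)) / Real.log (y * (X + 1)) ≤ (1 + η) * (2 * y * X / Real.log X) := by
    calc 2 * (y * (X + 1)) / Real.log (y * (X + 1)) ≤
        2 * (y * ((1 + δ) * X)) / ((1 - δ) * Real.log X) := by
          apply div_le_div₀ (by positivity) _ h7 h5
          have := mul_le_mul_of_nonneg_left h6 hy0.le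
          linarith
      _ = (1 + η) * (2 * y * X / Real.log X) := by
          have : (1 - δ) ≠ 0 := by linarith
          rw [hδ2]
          field_simp
  have h9 : (1 + η) * (√y * √(2 * X / Real.log X)) =
      √((1 + η) ^ 2 * (y * (2 * X / Real.log X))) := by
    rw [Real.sqrt_mul (by positivity), Real.sqrt_sq (by positivity), Real.sqrt_mul hy0.le]
  rw [h9]
  apply Real.sqrt_le_sqrt
  have h10 : 0 ≤ 2 * y * X / Real.log X := by positivity
  calc 2 * (y * (X + 1)) / Real.log (y * (X + 1)) ≤ (1 + η) * (2 * y * X / Real.log X) := h8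
    _ ≤ (1 + η) ^ 2 * (2 * y * X / Real.log X) := by
        apply mul_le_mul_of_nonneg_right _ h10
        nlinarith
    _ = _ := by ring

theorem YY_lower {w η : ℝ} (hw : 0 < w) (hη : 0 < η) (hη1 : η ≤ 1) :
    ∀ᶠ X : ℝ in atTop, ∀ y : ℝ, w ≤ y → y ≤ 2 →
      (1 - η) * (√y * √(2 * X / Real.log X)) ≤ YY (y * (X + 1)) := by
  filter_upwards [Real.tendsto_log_atTop.eventually_ge_atTop (Real.log 4 / η),
    eventually_ge_atTop (2 / w), eventually_ge_atTop (1 : ℝ),
    Real.tendsto_log_atTop.eventually_ge_atTop 1] with X h1 h2 h3 h4 y hy hy2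
  have hy0 : 0 < y := by linarith
  have hX0 : 0 < X := by linarith
  have hl : 0 < Real.log X := by linarith
  have h5 : 1 < y * (X + 1) := by
    rw [div_le_iff₀ hw] at h2
    nlinarith
  have h6 : Real.log (y * (X + 1)) ≤ (1 + η) * Real.log X := by
    have h7 : y * (X + 1) ≤ 4 * X := by nlinarith
    have h8 := Real.log_le_log (by linarith) h7
    rw [Real.log_mul (by norm_num) hX0.ne'] at h8
    rw [div_le_iff₀ hη] at h1
    linarith
  have h7 : 0 < Real.log (y * (X + 1)) := Real.log_pos h5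
  have h9 : (1 - η) * (√y * √(2 * X / Real.log X)) =
      √((1 - η) ^ 2 * (y * (2 * X / Real.log X))) := by
    rw [Real.sqrt_mul (by positivity), Real.sqrt_sq (by linarith), Real.sqrt_mul hy0.le]
  rw [h9]
  apply Real.sqrt_le_sqrt
  rw [le_div_iff₀ h7]
  have h10 : (1 - η) ^ 2 * (1 + η) ≤ 1 := by nlinarith [mul_nonneg hη.le (sub_nonneg.2 hη1)]
  calc (1 - η) ^ 2 * (y * (2 * X / Real.log X)) * Real.log (y * (X + 1)) ≤
      (1 - η) ^ 2 * (y * (2 * X / Real.log X)) * ((1 + η) * Real.log X) :=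
        mul_le_mul_of_nonneg_left h6 (by positivity)
    _ = ((1 - η) ^ 2 * (1 + η)) * (2 * (y * X)) := by field_simp
    _ ≤ 1 * (2 * (y * X)) := mul_le_mul_of_nonneg_right h10 (by positivity)
    _ ≤ 2 * (y * (X + 1)) := by nlinarith

/-- the radicals of coprime ideals -/
theorem tr_eq {n : ℕ} {P : Fin n → Idl K} (h : ∀ l l', l ≠ l' → Cop (P l) (P l')) :
    tr P = ∑ l, rl (P l) := by
  classical
  unfold tr sp rl
  rw [Finset.sum_biUnion]
  intro l _ l' _ hl
  rw [Function.onFun, Finset.disjoint_left]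
  intro v hv hv'
  rcases h l l' hl v with h1 | h1
  · exact Finsupp.mem_support_iff.1 hv h1
  · exact Finsupp.mem_support_iff.1 hv' h1

/-- the sum of the square roots is nearly maximal only near the diagonal -/
theorem sqrt_sum {a δ : ℝ} (ha : 0 < a) {t : Fin q → ℝ} (ht : ∀ l, 0 ≤ t l)
    (hs : ∑ l, t l ≤ q * a ^ 2 + 2 * δ) (l₁ : Fin q) :
    ∑ l, √(t l) ≤ q * a + (2 * δ - (√(t l₁) - a) ^ 2) / (2 * a) := by
  have h1 : ∑ l, (√(t l) - a) ^ 2 = ∑ l, t l - 2 * a * ∑ l, √(t l) + q * a ^ 2 := by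
    have h2 : ∀ l, (√(t l) - a) ^ 2 = t l - 2 * a * √(t l) + a ^ 2 := by
      intro l
      have := Real.sq_sqrt (ht l)
      nlinarith
    rw [Finset.sum_congr rfl fun l _ => h2 l, Finset.sum_add_distrib, Finset.sum_sub_distrib,
      ← Finset.mul_sum, Finset.sum_const, Finset.card_univ, Fintype.card_fin, nsmul_eq_mul]
  have h3 : (√(t l₁) - a) ^ 2 ≤ ∑ l, (√(t l) - a) ^ 2 :=
    Finset.single_le_sum (f := fun l => (√(t l) - a) ^ 2) (fun l _ => sq_nonneg _) (mem_univ l₁)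
  have h4 : ∑ l, √(t l) ≤ (2 * (q * a ^ 2) + 2 * δ - (√(t l₁) - a) ^ 2) / (2 * a) := by
    rw [le_div_iff₀ (by positivity)]
    linarith
  refine h4.trans (le_of_eq ?_)
  field_simp
  ring

theorem sqrt_sum0 {a δ : ℝ} (ha : 0 < a) {t : Fin q → ℝ} (ht : ∀ l, 0 ≤ t l)
    (hs : ∑ l, t l ≤ q * a ^ 2 + 2 * δ) (l₁ : Fin q) :
    ∑ l, √(t l) ≤ q * a + δ / a := by
  refine (sqrt_sum ha ht hs l₁).trans ?_
  have h1 : (2 * δ - (√(t l₁) - a) ^ 2) / (2 * a) ≤ 2 * δ / (2 * a) :=
    div_le_div_of_nonneg_right (by nlinarith [sq_nonneg (√(t l₁) - a)]) (by positivity)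
  have h2 : 2 * δ / (2 * a) = δ / a := by field_simp
  linarith

/-- the saving away from the diagonal -/
theorem sqrt_dev {a b e t : ℝ} (ha : 0 ≤ a) (ha1 : a ≤ 1) (hab : a ^ 2 = b) (ht : 0 ≤ t)
    (ht1 : t ≤ 1) (he : 0 ≤ e) (h : e ≤ |t - b|) : e ^ 2 / 4 ≤ (√t - a) ^ 2 := by
  have h0 := Real.sqrt_nonneg t
  have h1 : √t ≤ 1 := Real.sqrt_le_one.2 ht1
  have h2 := Real.sq_sqrt ht
  have h3 : |t - b| = |√t - a| * (√t + a) := by
    rw [← abs_of_nonneg (add_nonneg h0 ha), ← abs_mul]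
    congr 1
    nlinarith
  have h4 : |√t - a| * (√t + a) ≤ |√t - a| * 2 :=
    mul_le_mul_of_nonneg_left (by linarith) (abs_nonneg _)
  have h5 : e ≤ 2 * |√t - a| := by linarith
  have h6 := mul_self_le_mul_self he h5
  have h7 := sq_abs (√t - a)
  nlinarith

end Pool.Agent.U663.SD
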