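import Pool.Agent.U663.SD.Ideal

/-!
# Anatomy of the exceptions (helper663): the bound for one class

`clsQ` is `Pool.Agent.N575.QP.cls` (helper575) with a further condition `Q l` on the squareful parts of
the ideals, and with the parameters `Z l` depending on the closeness of the class.
-/

set_option autoImplicit false
set_option linter.unusedSectionVars false

namespace Pool.Agent.U663.SD

open NumberField IsDedekindDomain Finset Filter Topology Pool.Agent.H691R3 Pool.Agent.W223.AK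
open Pool.Agent.N906.NT (Cx cst)
open Pool.Agent.N906.KG Pool.Agent.N575.QP

variable {K : Type} [Field K] [NumberField K] {q : ℕ}

theorem clsQ {α : Fin q → K × K} {S : Finset (Pr K)} {κ : Fin q → ℝ} {A C C₀ κ' X : ℝ}
    {R Z : Fin q → ℝ} (hA : 0 ≤ A) (hC : 0 ≤ C) (hC₀ : 0 ≤ C₀) (hκ0 : ∀ l, 0 ≤ κ l)
    (hκ1 : ∀ l, κ l ≤ 1) (hκs : ∑ l, κ l ≤ 2) (hκ' : κ' ≤ 1) (h : CB α S A)
    {c : ℕ × (Pl K → Fin q) × (Pl K → ℕ)} (hc : (c.1 : ℝ) ≤ X + 1)
    (hZ : ∀ l, κ l * c.1 - kl S c l ≤ Z l) {Q : Fin q → Idl K → Prop}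
    (hrank : ∀ l (T : ℝ) (F : Finset (Idl K)), T ≤ Z l →
      (∀ a ∈ F, (∀ v, a v ≠ 1) ∧ T ≤ len a - rl a ∧ Q l a) →
      ∑ a ∈ F, Real.exp (-len a) ≤ Real.exp (-T + R l))
    {G : Finset K} (hG : ∀ x ∈ G, Of α x ∧ Ic α S C c x ∧
      ∃ P, IsP S α x P ∧ (∀ l, rl (P l) ≤ (1 - κ l) * hr (aff x) + C₀) ∧
        ((q : ℝ) - κ') * hr (aff x) ≤ tr P ∧ ∀ l, Q l (sqf (P l))) :
    (G.card : ℝ) ≤ A * (1 + Real.exp (2 * C)) * Real.exp (q * (1 + C + C₀)) *
      Real.exp ((2 - ∑ l, κ l) * (X + 1) + ∑ l, R l) := by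
  classical
  have hP' : ∀ x : K, ∃ P : Fin q → Idl K, x ∈ G → IsP S α x P ∧
      (∀ l, rl (P l) ≤ (1 - κ l) * hr (aff x) + C₀) ∧ ((q : ℝ) - κ') * hr (aff x) ≤ tr P ∧
      ∀ l, Q l (sqf (P l)) := by
    intro x
    by_cases hx : x ∈ G
    · obtain ⟨P, hP⟩ := (hG x hx).2.2
      exact ⟨P, fun _ => hP⟩
    · exact ⟨0, fun h => absurd h hx⟩
  choose P hP using hP'
  obtain ⟨D, hD⟩ : ∃ D : K → Fin q → Idl K, D = fun x l => sqf (P x l) := ⟨_, rfl⟩
  obtain ⟨m, hm⟩ : ∃ m : ℝ, m = (c.1 : ℝ) := ⟨_, rfl⟩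
  obtain ⟨T, hT⟩ : ∃ T : Fin q → ℝ, T = fun l => κ l * m - kl S c l - (1 + C + C₀) := ⟨_, rfl⟩
  have hm0 : 0 ≤ m := by rw [hm]; exact Nat.cast_nonneg _
  rw [← hm] at hc
  have hT1 : ∀ l, T l ≤ Z l := by
    intro l
    rw [hT]
    have h2 := hZ l
    rw [← hm] at h2
    simp only
    linarith
  have g1 : ∀ x ∈ G, ∀ l, T l ≤ len (D x l) - rl (D x l) := by
    intro x hx l
    obtain ⟨-, i1, -⟩ := hG x hx
    obtain ⟨i2, i3, -, -⟩ := hP x hx
    rw [hD, hT]
    simp only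
    rw [gain_sqf]
    have e1 := i1.ge (P x) i2 l
    have e2 := i3 l
    have e3 := i1.dn
    rw [← hm] at e3
    have e4 := hκ0 l
    have e5 := hκ1 l
    have e6 : κ l * (m - 1) ≤ κ l * hr (aff x) := mul_le_mul_of_nonneg_left e3 e4
    linarith
  have g2 : ∀ x ∈ G, tl (D x) + kt S c ≤ 2 * m + 2 * C := by
    intro x hx
    obtain ⟨-, i1, -⟩ := hG x hx
    obtain ⟨i2, -, i3, -⟩ := hP x hx
    have e1 : tl (D x) ≤ 2 * (tl (P x) - ∑ l, rl (P x l)) := by
      unfold tl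
      rw [← Finset.sum_sub_distrib, Finset.mul_sum]
      refine Finset.sum_le_sum fun l _ => ?_
      rw [hD]
      simp only
      rw [← gain_sqf (P x l)]
      exact len_le_gain _ (sqf_ne _)
    have e2 := tr_le_rl (P x)
    have e3 := i1.le (P x) i2
    have e4 := i1.up
    rw [← hm] at e4
    have e5 := hr_aff_nonneg x
    have e6 := kt0 S c
    have e7 : κ' * hr (aff x) ≤ 1 * hr (aff x) := mul_le_mul_of_nonneg_right hκ' e5
    linarith
  obtain ⟨L, hL⟩ : ∃ L : Finset (Fin q → Idl K), L = G.image D := ⟨_, rfl⟩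
  have hterm : ∀ E ∈ L, ((#{x ∈ G | D x = E} : ℕ) : ℝ) ≤
      A * (1 + Real.exp (2 * C)) * Real.exp (2 * m - kt S c) * Real.exp (-tl E) := by
    intro E hE
    rw [hL] at hE
    obtain ⟨x₀, hx₀, hE₀⟩ := mem_image.1 hE
    have b0 := g2 x₀ hx₀
    rw [hE₀] at b0
    have b1 := cell_code (D := E) (F := {x ∈ G | D x = E}) (C := C) (c := c) hA h (by
      intro x hx
      rw [mem_filter] at hx
      obtain ⟨i1, i2, -⟩ := hG x hx.1
      refine ⟨i1, i2, P x, (hP x hx.1).1, fun l => ?_⟩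
      rw [← hx.2, hD]
      exact sqf_le _)
    refine b1.trans ?_
    rw [← hm]
    have b2 : (1 : ℝ) ≤ Real.exp (2 * C) * Real.exp (2 * m - tl E - kt S c) := by
      rw [← Real.exp_add]
      apply Real.one_le_exp
      linarith
    have b3 : Real.exp (2 * m - tl E - kt S c) = Real.exp (2 * m - kt S c) * Real.exp (-tl E) := by
      rw [← Real.exp_add]
      congr 1
      ring
    calc A * (Real.exp (2 * m - tl E - kt S c) + 1)
        ≤ A * ((1 + Real.exp (2 * C)) * Real.exp (2 * m - tl E - kt S c)) := by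
          apply mul_le_mul_of_nonneg_left _ hA
          linarith
      _ = _ := by rw [b3]; ring
  have hsum : ∑ E ∈ L, Real.exp (-tl E) ≤ Real.exp (∑ l, (-T l + R l)) := by
    have s1 : L ⊆ Fintype.piFinset fun l => L.image fun E => E l := by
      intro E hE
      rw [Fintype.mem_piFinset]
      intro l
      exact mem_image_of_mem _ hE
    refine (Finset.sum_le_sum_of_subset_of_nonneg s1 fun _ _ _ => (Real.exp_pos _).le).trans ?_
    have s2 : ∀ E : Fin q → Idl K, Real.exp (-tl E) = ∏ l, Real.exp (-len (E l)) := by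
      intro E
      rw [← Real.exp_sum]
      unfold tl
      rw [Finset.sum_neg_distrib]
    rw [Finset.sum_congr rfl fun E _ => s2 E,
      ← Finset.prod_univ_sum (fun l => L.image fun E => E l) (fun _ a => Real.exp (-len a)),
      Real.exp_sum]
    refine Finset.prod_le_prod (fun l _ => Finset.sum_nonneg fun _ _ => (Real.exp_pos _).le)
      fun l _ => ?_
    refine hrank l (T l) _ (hT1 l) fun a ha => ?_
    obtain ⟨E, hE, rfl⟩ := mem_image.1 ha
    rw [hL] at hE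
    obtain ⟨x, hx, rfl⟩ := mem_image.1 hE
    refine ⟨fun v => ?_, g1 x hx l, ?_⟩
    · rw [hD]
      exact sqf_ne _ v
    · rw [hD]
      exact (hP x hx).2.2.2 l
  have hTs : ∑ l, (-T l + R l) = -(∑ l, κ l) * m + kt S c + q * (1 + C + C₀) + ∑ l, R l := by
    rw [Finset.sum_add_distrib, Finset.sum_neg_distrib, hT, Finset.sum_sub_distrib,
      Finset.sum_sub_distrib, ← Finset.sum_mul, kl_sum, Finset.sum_const, Finset.card_univ,
      Fintype.card_fin, nsmul_eq_mul]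
    ring
  rw [card_eq_sum_card_image D G, ← hL]
  push_cast
  refine (Finset.sum_le_sum hterm).trans ?_
  rw [← Finset.mul_sum]
  obtain ⟨B, hB⟩ : ∃ B : ℝ, B = A * (1 + Real.exp (2 * C)) := ⟨_, rfl⟩
  have hB0 : 0 ≤ B := by rw [hB]; positivity
  rw [← hB]
  calc B * Real.exp (2 * m - kt S c) * ∑ E ∈ L, Real.exp (-tl E)
      ≤ B * Real.exp (2 * m - kt S c) * Real.exp (∑ l, (-T l + R l)) :=
        mul_le_mul_of_nonneg_left hsum (by positivity)
    _ = B * Real.exp ((2 - ∑ l, κ l) * m + q * (1 + C + C₀) + ∑ l, R l) := by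
        rw [mul_assoc, ← Real.exp_add, hTs]
        congr 2
        ring
    _ ≤ B * Real.exp (q * (1 + C + C₀) + ((2 - ∑ l, κ l) * (X + 1) + ∑ l, R l)) := by
        apply mul_le_mul_of_nonneg_left _ hB0
        apply Real.exp_le_exp.2
        have : (2 - ∑ l, κ l) * m ≤ (2 - ∑ l, κ l) * (X + 1) :=
          mul_le_mul_of_nonneg_left hc (by linarith)
        linarith
    _ = _ := by rw [Real.exp_add]; ring


end Pool.Agent.U663.SD
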