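import Pool.Agent.N575.QP_UPJ

/-!
# Anatomy of the exceptions (helper663): sums over one ideal

Rankin's method with the number of the primes and with the norm of the radical, from `S_GUPK`.
-/

set_option autoImplicit false
set_option linter.unusedSectionVars false

namespace Pool.Agent.U663.SD

open NumberField IsDedekindDomain Finset Filter Topology Pool.Agent.H691R3 Pool.Agent.W223.AK
open Pool.Agent.N906.NT (Cx cst)
open Pool.Agent.N906.KG Pool.Agent.N575.QP

variable {K : Type} [Field K] [NumberField K]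

/-- `√(2 Z / log Z)` -/
noncomputable def YY (Z : ℝ) : ℝ := √(2 * Z / Real.log Z)

theorem YY_nonneg (Z : ℝ) : 0 ≤ YY Z := Real.sqrt_nonneg _

theorem YY_tendsto : Tendsto YY atTop atTop := by
  have h1 : Tendsto (fun Z : ℝ => Z / Real.log Z) atTop atTop := by
    have h2 := Real.isLittleO_log_id_atTop
    have h3 : Tendsto (fun x : ℝ => Real.log x / x) atTop (𝓝 0) := h2.tendsto_div_nhds_zero
    have h4 : Tendsto (fun x : ℝ => Real.log x / x) atTop (𝓝[>] 0) := by
      refine tendsto_nhdsWithin_iff.2 ⟨h3, ?_⟩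
      filter_upwards [eventually_gt_atTop (1 : ℝ)] with x hx
      exact div_pos (Real.log_pos hx) (by linarith)
    refine (h4.inv_tendsto_nhdsGT_zero).congr fun x => ?_
    rw [Pi.inv_apply, inv_div]
  have h5 : Tendsto (fun Z : ℝ => 2 * Z / Real.log Z) atTop atTop := by
    refine (h1.const_mul_atTop (by norm_num : (0 : ℝ) < 2)).congr fun x => ?_
    rw [mul_div_assoc]
  exact Real.tendsto_sqrt_atTop.comp h5

theorem YY_small {c : ℝ} (hc : 0 < c) : ∀ᶠ Z : ℝ in atTop, YY Z ≤ c * Z := by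
  filter_upwards [Real.tendsto_log_atTop.eventually_ge_atTop 1,
    eventually_ge_atTop (2 / c ^ 2), eventually_gt_atTop (0 : ℝ)] with Z h1 h2 h3
  unfold YY
  apply Real.sqrt_le_iff.2
  refine ⟨by positivity, ?_⟩
  rw [div_le_iff₀ (by positivity)] at h2
  calc 2 * Z / Real.log Z ≤ 2 * Z / 1 := div_le_div_of_nonneg_left (by positivity) one_pos h1
    _ ≤ (Z * c ^ 2) * Z := by nlinarith
    _ = (c * Z) ^ 2 := by ring

theorem tilt (hG : S_GUPK K) {μ θ ε : ℝ} (hμ : 0 < μ) (hθ : 0 ≤ θ) (hθ2 : θ ≤ 1 / 2)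
    (hε : 0 < ε) : ∃ Z₀ : ℝ, 1 < Z₀ ∧
    ∀ (Z T : ℝ) (F : Finset (Idl K)), Z₀ ≤ Z → T ≤ Z →
      (∀ a ∈ F, (∀ v, a v ≠ 1) ∧ T ≤ len a - rl a) →
      ∑ a ∈ F, μ ^ a.support.card * Real.exp (-len a + θ * (YY Z / Z) * rl a) ≤
        Real.exp (-T + (1 + (1 + ε) * μ) * YY Z) := by
  classical
  obtain ⟨u₀, hu₀, hu₀2, hgen⟩ := hG 1 univ 1 1 μ θ ε cx1 hμ hθ hθ2 hε
  obtain ⟨Z₁, hZ₁⟩ := eventually_atTop.1 ((YY_small (c := u₀ / 2) (by positivity)).and
    ((Real.tendsto_log_atTop.eventually_ge_atTop 2).and (eventually_ge_atTop (2 : ℝ))))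
  refine ⟨max Z₁ 2, lt_max_of_lt_right (by norm_num), fun Z T F hZ hT hF => ?_⟩
  obtain ⟨h1, h2, h3⟩ := hZ₁ Z ((le_max_left _ _).trans hZ)
  have hZ0 : 0 < Z := by linarith
  have hl0 : 0 < Real.log Z := by linarith
  obtain ⟨u, hu⟩ : ∃ u : ℝ, u = YY Z / Z := ⟨_, rfl⟩
  have hY0 : 0 < YY Z := Real.sqrt_pos.2 (by positivity)
  have hu0 : 0 < u := by rw [hu]; positivity
  have huu : u < u₀ := by
    rw [hu, div_lt_iff₀ hZ0]
    nlinarith
  have hY2 : YY Z ^ 2 = 2 * Z / Real.log Z := Real.sq_sqrt (by positivity)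
  have huZ : u * Z = YY Z := by rw [hu]; field_simp
  -- `log (1/u) ≥ (1/2) log Z`
  have hlog : Real.log Z / 2 ≤ Real.log (1 / u) := by
    have h4 : √Z ≤ 1 / u := by
      rw [le_div_iff₀ hu0]
      have h5 : (√Z * u) ^ 2 ≤ 1 ^ 2 := by
        rw [mul_pow, Real.sq_sqrt hZ0.le, hu, div_pow, hY2]
        rw [show Z * (2 * Z / Real.log Z / Z ^ 2) = 2 / Real.log Z by field_simp]
        rw [div_le_iff₀ hl0]
        linarith
      exact (abs_le_of_sq_le_sq' h5 (by norm_num)).2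
    have h6 := Real.log_le_log (Real.sqrt_pos.2 hZ0) h4
    rw [Real.log_sqrt hZ0.le] at h6
    exact h6
  have hul : 1 / (u * Real.log (1 / u)) ≤ YY Z := by
    have h7 : 0 < Real.log (1 / u) := by linarith
    rw [div_le_iff₀ (by positivity)]
    have h8 : YY Z * u = 2 / Real.log Z := by
      rw [hu, ← mul_div_assoc, ← sq, hY2]
      field_simp
    calc (1 : ℝ) = 2 / Real.log Z * (Real.log Z / 2) := by field_simp
      _ ≤ 2 / Real.log Z * Real.log (1 / u) := mul_le_mul_of_nonneg_left hlog (by positivity)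
      _ = YY Z * (u * Real.log (1 / u)) := by rw [← h8]; ring
  have hinj : Set.InjOn (fun (a : Idl K) (_ : Fin 1) => a) (F : Set (Idl K)) :=
    fun a _ b _ hab => congrFun hab 0
  have hg := hgen u hu0 huu (F.image fun a => fun _ : Fin 1 => a) (by
    intro D hD
    obtain ⟨a, ha, rfl⟩ := mem_image.1 hD
    obtain ⟨k1, k2⟩ := hF a ha
    refine ⟨fun v => mem_univ _, fun v => ?_⟩
    rw [Fin.sum_univ_one]
    exact k1 v)
  rw [Finset.sum_image hinj] at hg
  have e1 : ∀ a : Idl K, om (fun _ : Fin 1 => a) = a.support.card := by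
    intro a
    unfold om
    rw [sp_one]
  have e2 : ∀ a : Idl K, gl (fun _ : Fin 1 => a) = len a - rl a := by
    intro a
    unfold gl
    rw [tl_one, tr_one]
  simp only [e1, e2, tr_one] at hg
  have e3 : (1 + ε) * μ * ((1 : ℕ) : ℝ) / (((1 : ℕ) : ℝ) * (((1 : ℕ) : ℝ) *
      (u * Real.log (1 / u))) ^ 1) = (1 + ε) * μ * (1 / (u * Real.log (1 / u))) := by
    rw [Nat.cast_one]
    ring
  rw [e3] at hg
  have hterm : ∀ a ∈ F, μ ^ a.support.card * Real.exp (-len a + θ * (YY Z / Z) * rl a) ≤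
      Real.exp (-((1 - u) * T)) * (μ ^ a.support.card *
        Real.exp (-(u * (len a - rl a)) - (1 - θ * u) * rl a)) := by
    intro a ha
    have k2 := (hF a ha).2
    rw [← hu, mul_left_comm]
    apply mul_le_mul_of_nonneg_left _ (by positivity)
    rw [← Real.exp_add]
    apply Real.exp_le_exp.2
    have k3 : (1 - u) * T ≤ (1 - u) * (len a - rl a) :=
      mul_le_mul_of_nonneg_left k2 (by linarith)
    nlinarith
  calc ∑ a ∈ F, μ ^ a.support.card * Real.exp (-len a + θ * (YY Z / Z) * rl a) ≤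
      ∑ a ∈ F, Real.exp (-((1 - u) * T)) * (μ ^ a.support.card *
        Real.exp (-(u * (len a - rl a)) - (1 - θ * u) * rl a)) := Finset.sum_le_sum hterm
    _ = Real.exp (-((1 - u) * T)) * ∑ a ∈ F, (μ ^ a.support.card *
        Real.exp (-(u * (len a - rl a)) - (1 - θ * u) * rl a)) := by rw [Finset.mul_sum]
    _ ≤ Real.exp (-((1 - u) * T)) * Real.exp ((1 + ε) * μ * (1 / (u * Real.log (1 / u)))) :=
        mul_le_mul_of_nonneg_left hg (Real.exp_pos _).le
    _ ≤ _ := by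
        rw [← Real.exp_add]
        apply Real.exp_le_exp.2
        have h9 : u * T ≤ YY Z := by
          rw [← huZ]
          exact mul_le_mul_of_nonneg_left hT hu0.le
        have h10 : (1 + ε) * μ * (1 / (u * Real.log (1 / u))) ≤ (1 + ε) * μ * YY Z :=
          mul_le_mul_of_nonneg_left hul (by positivity)
        linarith

/-- no further condition -/
theorem tiltA (hG : S_GUPK K) {ε : ℝ} (hε : 0 < ε) : ∃ Z₀ : ℝ, 1 < Z₀ ∧
    ∀ (Z T : ℝ) (F : Finset (Idl K)), Z₀ ≤ Z → T ≤ Z →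
      (∀ a ∈ F, (∀ v, a v ≠ 1) ∧ T ≤ len a - rl a) →
      ∑ a ∈ F, Real.exp (-len a) ≤ Real.exp (-T + (2 + ε) * YY Z) := by
  obtain ⟨Z₀, h0, h⟩ := tilt (K := K) hG (μ := 1) (θ := 0) (ε := ε) one_pos le_rfl (by norm_num) hε
  refine ⟨Z₀, h0, fun Z T F hZ hT hF => ?_⟩
  have := h Z T F hZ hT hF
  simp only [one_pow, one_mul, zero_mul, add_zero, mul_one] at this
  rw [show (2 + ε) * YY Z = (1 + (1 + ε)) * YY Z by ring]
  exact this

/-- a large radical -/
theorem tiltC (hG : S_GUPK K) {ε : ℝ} (hε : 0 < ε) : ∃ Z₀ : ℝ, 1 < Z₀ ∧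
    ∀ (Z T : ℝ) (F : Finset (Idl K)), Z₀ ≤ Z → T ≤ Z →
      (∀ a ∈ F, (∀ v, a v ≠ 1) ∧ T ≤ len a - rl a ∧ ε * Z ≤ rl a) →
      ∑ a ∈ F, Real.exp (-len a) ≤ Real.exp (-T + (2 - ε / 4) * YY Z) := by
  obtain ⟨Z₀, h0, h⟩ := tilt (K := K) hG (μ := 1) (θ := 1 / 2) (ε := ε / 4) one_pos (by norm_num)
    le_rfl (by positivity)
  refine ⟨Z₀, h0, fun Z T F hZ hT hF => ?_⟩
  have hZ1 : 0 < Z := by linarith
  have h1 := h Z T F hZ hT fun a ha => ⟨(hF a ha).1, (hF a ha).2.1⟩
  simp only [one_pow, one_mul, mul_one] at h1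
  have h2 : ∀ a ∈ F, Real.exp (-len a) ≤ Real.exp (-(ε / 2 * YY Z)) *
      Real.exp (-len a + 1 / 2 * (YY Z / Z) * rl a) := by
    intro a ha
    rw [← Real.exp_add]
    apply Real.exp_le_exp.2
    have h3 := (hF a ha).2.2
    have h4 : 0 ≤ 1 / 2 * (YY Z / Z) := by
      have := YY_nonneg Z
      positivity
    have h5 := mul_le_mul_of_nonneg_left h3 h4
    have h6 : 1 / 2 * (YY Z / Z) * (ε * Z) = ε / 2 * YY Z := by field_simp
    linarith
  calc ∑ a ∈ F, Real.exp (-len a) ≤ ∑ a ∈ F, Real.exp (-(ε / 2 * YY Z)) *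
      Real.exp (-len a + 1 / 2 * (YY Z / Z) * rl a) := Finset.sum_le_sum h2
    _ = Real.exp (-(ε / 2 * YY Z)) * ∑ a ∈ F, Real.exp (-len a + 1 / 2 * (YY Z / Z) * rl a) := by
        rw [Finset.mul_sum]
    _ ≤ Real.exp (-(ε / 2 * YY Z)) * Real.exp (-T + (1 + (1 + ε / 4)) * YY Z) :=
        mul_le_mul_of_nonneg_left h1 (Real.exp_pos _).le
    _ = _ := by
        rw [← Real.exp_add]
        congr 1
        ring

/-- too many or too few primes -/
theorem tiltB (hG : S_GUPK K) {ε : ℝ} (hε : 0 < ε) (hε1 : ε ≤ 1) : ∃ Z₀ : ℝ, 1 < Z₀ ∧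
    ∀ (Z T : ℝ) (F : Finset (Idl K)), Z₀ ≤ Z → T ≤ Z →
      (∀ a ∈ F, (∀ v, a v ≠ 1) ∧ T ≤ len a - rl a ∧ ε * YY Z ≤ |(a.support.card : ℝ) - YY Z|) →
      ∑ a ∈ F, Real.exp (-len a) ≤ Real.exp (-T + (2 - ε ^ 2 / 32) * YY Z) := by
  classical
  obtain ⟨Z₁, h01, h1⟩ := tilt (K := K) hG (μ := 1 + ε / 2) (θ := 0) (ε := ε ^ 2 / 16) (by positivity)
    le_rfl (by norm_num) (by positivity)
  obtain ⟨Z₂, h02, h2⟩ := tilt (K := K) hG (μ := 1 - ε / 4) (θ := 0) (ε := ε ^ 2 / 16) (by linarith)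
    le_rfl (by norm_num) (by positivity)
  obtain ⟨Z₃, h3⟩ := eventually_atTop.1 (YY_tendsto.eventually_ge_atTop (32 * Real.log 2 / ε ^ 2))
  refine ⟨max (max Z₁ Z₂) Z₃, lt_max_of_lt_left (lt_max_of_lt_left h01), fun Z T F hZ hT hF => ?_⟩
  have hY := YY_nonneg Z
  have hlog2 : Real.log 2 ≤ ε ^ 2 / 32 * YY Z := by
    have := h3 Z ((le_max_right _ _).trans hZ)
    rw [div_le_iff₀ (by positivity)] at this
    linarith
  -- many primes
  have hA : ∑ a ∈ F.filter (fun a => (1 + ε) * YY Z ≤ a.support.card), Real.exp (-len a) ≤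
      Real.exp (-T + (2 - ε ^ 2 / 16) * YY Z) := by
    have k1 := h1 Z T (F.filter (fun a => (1 + ε) * YY Z ≤ a.support.card))
      ((le_max_left _ _).trans ((le_max_left _ _).trans hZ)) hT
      fun a ha => ⟨(hF a (mem_filter.1 ha).1).1, (hF a (mem_filter.1 ha).1).2.1⟩
    simp only [zero_mul, add_zero] at k1
    have hl : ε / 2 - ε ^ 2 / 8 ≤ Real.log (1 + ε / 2) := by
      have h5 := Real.le_log_one_add_of_nonneg (x := ε / 2) (by positivity)
      refine le_trans ?_ h5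
      rw [le_div_iff₀ (by positivity)]
      nlinarith [mul_pos (mul_pos hε hε) hε]
    have hl0 : 0 ≤ Real.log (1 + ε / 2) := Real.log_nonneg (by linarith)
    have k2 : ∀ a ∈ F.filter (fun a => (1 + ε) * YY Z ≤ a.support.card), Real.exp (-len a) ≤
        Real.exp (-((1 + ε) * YY Z * Real.log (1 + ε / 2))) *
          ((1 + ε / 2) ^ a.support.card * Real.exp (-len a)) := by
      intro a ha
      have k3 := (mem_filter.1 ha).2
      rw [← mul_assoc]
      have k4 : 1 ≤ Real.exp (-((1 + ε) * YY Z * Real.log (1 + ε / 2))) *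
          (1 + ε / 2) ^ a.support.card := by
        rw [← Real.exp_log (show (0 : ℝ) < (1 + ε / 2) ^ a.support.card by positivity),
          ← Real.exp_add, Real.log_pow]
        apply Real.one_le_exp
        have := mul_le_mul_of_nonneg_right k3 hl0
        linarith
      exact le_mul_of_one_le_left (Real.exp_pos _).le k4
    calc _ ≤ _ := Finset.sum_le_sum k2
      _ = Real.exp (-((1 + ε) * YY Z * Real.log (1 + ε / 2))) *
          ∑ a ∈ F.filter (fun a => (1 + ε) * YY Z ≤ a.support.card),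
            ((1 + ε / 2) ^ a.support.card * Real.exp (-len a)) := by rw [Finset.mul_sum]
      _ ≤ Real.exp (-((1 + ε) * YY Z * Real.log (1 + ε / 2))) *
          Real.exp (-T + (1 + (1 + ε ^ 2 / 16) * (1 + ε / 2)) * YY Z) :=
          mul_le_mul_of_nonneg_left k1 (Real.exp_pos _).le
      _ ≤ _ := by
          rw [← Real.exp_add]
          apply Real.exp_le_exp.2
          have k5 : (1 + ε) * YY Z * (ε / 2 - ε ^ 2 / 8) ≤ (1 + ε) * YY Z * Real.log (1 + ε / 2) :=
            mul_le_mul_of_nonneg_left hl (by positivity)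
          have k6 : (1 + (1 + ε ^ 2 / 16) * (1 + ε / 2)) - (1 + ε) * (ε / 2 - ε ^ 2 / 8) ≤
              2 - ε ^ 2 / 16 := by
            nlinarith [mul_pos (mul_pos hε hε) hε, mul_le_mul_of_nonneg_left hε1 (sq_nonneg ε)]
          have k7 := mul_le_mul_of_nonneg_right k6 hY
          nlinarith
  -- few primes
  have hB : ∑ a ∈ F.filter (fun a => ¬ (1 + ε) * YY Z ≤ a.support.card), Real.exp (-len a) ≤
      Real.exp (-T + (2 - ε ^ 2 / 16) * YY Z) := by
    have k1 := h2 Z T (F.filter (fun a => ¬ (1 + ε) * YY Z ≤ a.support.card))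
      ((le_max_right _ _).trans ((le_max_left _ _).trans hZ)) hT
      fun a ha => ⟨(hF a (mem_filter.1 ha).1).1, (hF a (mem_filter.1 ha).1).2.1⟩
    simp only [zero_mul, add_zero] at k1
    have hl : -(ε / 4 + ε ^ 2 / 8) ≤ Real.log (1 - ε / 4) := by
      have h5 := Real.one_sub_inv_le_log_of_pos (x := 1 - ε / 4) (by linarith)
      refine le_trans ?_ h5
      have h7 : (1 - ε / 4)⁻¹ ≤ 1 + (ε / 4 + ε ^ 2 / 8) := by
        rw [inv_le_iff_one_le_mul₀ (by linarith)]
        nlinarith [mul_pos (mul_pos hε hε) hε, mul_le_mul_of_nonneg_left hε1 (sq_nonneg ε)]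
      linarith
    have hl0 : Real.log (1 - ε / 4) ≤ 0 := Real.log_nonpos (by linarith) (by linarith)
    have k2 : ∀ a ∈ F.filter (fun a => ¬ (1 + ε) * YY Z ≤ a.support.card), Real.exp (-len a) ≤
        Real.exp (-((1 - ε) * YY Z * Real.log (1 - ε / 4))) *
          ((1 - ε / 4) ^ a.support.card * Real.exp (-len a)) := by
      intro a ha
      obtain ⟨k3', k3⟩ := mem_filter.1 ha
      have k4 := (hF a k3').2.2
      have k5 : (a.support.card : ℝ) ≤ (1 - ε) * YY Z := by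
        rcases le_abs.1 k4 with h6 | h6
        · exact absurd (by linarith) k3
        · linarith
      rw [← mul_assoc]
      have h1e : (0 : ℝ) < 1 - ε / 4 := by linarith
      have k4 : 1 ≤ Real.exp (-((1 - ε) * YY Z * Real.log (1 - ε / 4))) *
          (1 - ε / 4) ^ a.support.card := by
        rw [← Real.exp_log (show (0 : ℝ) < (1 - ε / 4) ^ a.support.card from pow_pos h1e _),
          ← Real.exp_add, Real.log_pow]
        apply Real.one_le_exp
        have := mul_le_mul_of_nonpos_right k5 hl0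
        linarith
      exact le_mul_of_one_le_left (Real.exp_pos _).le k4
    calc _ ≤ _ := Finset.sum_le_sum k2
      _ = Real.exp (-((1 - ε) * YY Z * Real.log (1 - ε / 4))) *
          ∑ a ∈ F.filter (fun a => ¬ (1 + ε) * YY Z ≤ a.support.card),
            ((1 - ε / 4) ^ a.support.card * Real.exp (-len a)) := by rw [Finset.mul_sum]
      _ ≤ Real.exp (-((1 - ε) * YY Z * Real.log (1 - ε / 4))) *
          Real.exp (-T + (1 + (1 + ε ^ 2 / 16) * (1 - ε / 4)) * YY Z) :=
          mul_le_mul_of_nonneg_left k1 (Real.exp_pos _).le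
      _ ≤ _ := by
          rw [← Real.exp_add]
          apply Real.exp_le_exp.2
          have k5 : (1 - ε) * YY Z * -(ε / 4 + ε ^ 2 / 8) ≤
              (1 - ε) * YY Z * Real.log (1 - ε / 4) :=
            mul_le_mul_of_nonneg_left hl (mul_nonneg (by linarith) hY)
          have k6 : (1 + (1 + ε ^ 2 / 16) * (1 - ε / 4)) + (1 - ε) * (ε / 4 + ε ^ 2 / 8) ≤
              2 - ε ^ 2 / 16 := by
            nlinarith [mul_pos (mul_pos hε hε) hε, mul_le_mul_of_nonneg_left hε1 (sq_nonneg ε)]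
          have k7 := mul_le_mul_of_nonneg_right k6 hY
          nlinarith
  rw [← Finset.sum_filter_add_sum_filter_not F (fun a => (1 + ε) * YY Z ≤ a.support.card)]
  calc _ ≤ Real.exp (-T + (2 - ε ^ 2 / 16) * YY Z) + Real.exp (-T + (2 - ε ^ 2 / 16) * YY Z) :=
        add_le_add hA hB
    _ = Real.exp (Real.log 2 + (-T + (2 - ε ^ 2 / 16) * YY Z)) := by
        rw [Real.exp_add (Real.log 2), Real.exp_log (by norm_num)]
        ring
    _ ≤ _ := by
        apply Real.exp_le_exp.2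
        linarith

end Pool.Agent.U663.SD
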