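import Pool.Agent.U663.SD.Ratio
import Pool.Agent.W223.AK.Final

/-!
# Anatomy of the exceptions (helper663): the points `(x : 1 : -1 - x)` over a number field
-/

set_option autoImplicit false
set_option linter.unusedSectionVars false

namespace Pool.Agent.U663.SD

open NumberField IsDedekindDomain Finset Filter Topology Pool.Agent.H691R3 Pool.Agent.W223.AK
open Pool.Agent.N906.KG Pool.Agent.N575.QP

variable {K : Type} [Field K] [NumberField K]

variable (K) in
/-- the points `0, ∞, -1` -/
def aK : Fin 3 → K × K := ![(0, 1), (1, 0), (-1, 1)]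

theorem al_aK : Al (aK K) := by
  constructor
  · intro l h
    fin_cases l
    · have := congrArg Prod.snd h
      simp [aK] at this
    · have := congrArg Prod.fst h
      simp [aK] at this
    · have := congrArg Prod.snd h
      simp [aK] at this
  · intro i j hij
    fin_cases i <;> fin_cases j <;> simp [aK] at hij ⊢

theorem gd_aK : Gd ∅ (aK K) := by
  intro v _
  constructor
  · intro l
    fin_cases l <;> simp [aK]
  · intro i j hij
    fin_cases i <;> fin_cases j <;> simp [aK] at hij ⊢

/-- the coordinates of the point of the line `a + b + c = 0` -/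
def cd (x : K) : Fin 3 → K := ![x, 1, -1 - x]

theorem of_aK {x : K} (h0 : x ≠ 0) (h1 : x ≠ -1) : Of (aK K) x := by
  intro l
  fin_cases l
  · simpa [aK] using h0
  · simp [aK]
  · have : x * 1 - (-1) ≠ 0 := by
      rw [mul_one, sub_neg_eq_add]
      intro h
      exact h1 (eq_neg_of_add_eq_zero_left h)
    exact this

theorem cd_ne {x : K} (h0 : x ≠ 0) (h1 : x ≠ -1) (l : Fin 3) : cd x l ≠ 0 := by
  fin_cases l
  · exact h0
  · exact one_ne_zero
  · intro h
    have h' : -1 - x = 0 := h
    exact h1 (by linear_combination -h')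

/-- the maximum of the coordinates at a prime -/
noncomputable def mx (v : Pr K) (x : K) : ℝ := max (fv v x) 1

theorem mx_pos (v : Pr K) (x : K) : 0 < mx v x := lt_max_of_lt_right one_pos

theorem cd_le (v : Pr K) (x : K) (l : Fin 3) : fv v (cd x l) ≤ mx v x := by
  fin_cases l
  · exact le_max_left _ _
  · show fv v 1 ≤ _
    rw [map_one]
    exact le_max_right _ _
  · show fv v (-1 - x) ≤ _
    have h1 : -1 - x = -(x + 1) := by ring
    rw [h1, map_neg_eq_map]
    have := fv_na v x 1
    rw [map_one] at this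
    exact this

theorem max_cd (v : Pr K) (x : K) :
    max (fv v (cd x 0)) (max (fv v (cd x 1)) (fv v (cd x 2))) = mx v x := by
  apply le_antisymm
  · exact max_le (cd_le v x 0) (max_le (cd_le v x 1) (cd_le v x 2))
  · refine max_le (le_max_left _ _) ?_
    refine le_trans (le_of_eq ?_) (le_trans (le_max_left _ _) (le_max_right _ _))
    show (1 : ℝ) = fv v 1
    rw [map_one]

theorem lam_cd {x : K} (v : Pr K) (l : Fin 3) :
    lam (Sum.inr v : Pl K) (aff x) (aK K l) = Real.log (mx v x / fv v (cd x l)) := by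
  have h0 : lam (Sum.inr v : Pl K) (aff x) (aK K l) =
      Real.log (max (fv v x) (fv v (1 : K)) * max (fv v (aK K l).1) (fv v (aK K l).2) /
        fv v (x * (aK K l).2 - 1 * (aK K l).1)) := rfl
  have h1 : max (fv v (aK K l).1) (fv v (aK K l).2) = 1 := (gd_aK v (Finset.notMem_empty v)).1 l
  rw [h0, h1, mul_one, map_one]
  have h2 : fv v (x * (aK K l).2 - 1 * (aK K l).1) = fv v (cd x l) := by
    fin_cases l
    · show fv v (x * 1 - 1 * 0) = fv v x
      rw [mul_one, mul_zero, sub_zero]
    · show fv v (x * 0 - 1 * 1) = fv v 1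
      rw [mul_zero, mul_one, zero_sub, map_neg_eq_map]
    · show fv v (x * 1 - 1 * (-1)) = fv v (-1 - x)
      rw [show x * 1 - 1 * (-1) = -(-1 - x) by ring, map_neg_eq_map]
  rw [h2]
  rfl

section

variable {x : K} (h0 : x ≠ 0) (h1 : x ≠ -1) {P : Fin 3 → Idl K}
  (hP : N906.KG.IsP ∅ (aK K) x P)

include h0 h1 hP

theorem P_log (l : Fin 3) (v : Pr K) :
    (P l v : ℝ) * Real.log (Nv v) = Real.log (mx v x / fv v (cd x l)) := by
  rw [← lam_cd]
  exact (hP.2 l v (Finset.notMem_empty v)).symm

/-- the divisibility by a power of `v` -/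
theorem le_P (l : Fin 3) (v : Pr K) (n : ℕ) :
    n ≤ P l v ↔ fv v (cd x l) * (Nv v) ^ n ≤ mx v x := by
  have hf : 0 < fv v (cd x l) := (fv v).pos (cd_ne h0 h1 l)
  have hm := mx_pos v x
  have hN : 0 < Real.log (Nv v) := log_Nv_pos v
  have hN0 : 0 < Nv v := by linarith [two_le_Nv v]
  have h2 := P_log h0 h1 hP l v
  rw [← div_le_one hm] 
  constructor
  · intro h
    have h3 : (n : ℝ) * Real.log (Nv v) ≤ Real.log (mx v x / fv v (cd x l)) := by
      rw [← h2]
      exact mul_le_mul_of_nonneg_right (by exact_mod_cast h) hN.le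
    rw [← Real.log_pow, Real.log_le_log_iff (by positivity) (by positivity),
      le_div_iff₀ hf] at h3
    rw [div_le_one hm]
    linarith
  · intro h
    rw [div_le_one hm] at h
    have h3 : (Nv v) ^ n ≤ mx v x / fv v (cd x l) := by
      rw [le_div_iff₀ hf]
      linarith
    rw [← Real.log_le_log_iff (by positivity) (by positivity), Real.log_pow, ← h2] at h3
    have h4 := le_of_mul_le_mul_right h3 hN
    exact_mod_cast h4

theorem ne_P (l : Fin 3) (v : Pr K) : P l v ≠ 0 ↔ fv v (cd x l) < mx v x := by
  have hf : 0 < fv v (cd x l) := (fv v).pos (cd_ne h0 h1 l)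
  have hm := mx_pos v x
  have hN : 0 < Real.log (Nv v) := log_Nv_pos v
  have h2 := P_log h0 h1 hP l v
  constructor
  · intro h
    have h3 : 0 < Real.log (mx v x / fv v (cd x l)) := by
      rw [← h2]
      have : (0 : ℝ) < P l v := by exact_mod_cast Nat.pos_of_ne_zero h
      positivity
    have h4 : 1 < mx v x / fv v (cd x l) := (Real.log_pos_iff (by positivity)).1 h3
    rwa [one_lt_div hf] at h4
  · intro h h3
    rw [h3, Nat.cast_zero, zero_mul] at h2
    have h4 : 0 < Real.log (mx v x / fv v (cd x l)) := Real.log_pos (by rwa [one_lt_div hf])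
    linarith

/-- the radical of the coordinate `l` -/
theorem rad_at (l : Fin 3) :
    ∑ᶠ (v : Pr K) (_ : fv v (cd x l) < mx v x), Real.log (Ideal.absNorm v.asIdeal : ℝ) = rl (P l) := by
  classical
  have e1 : ∀ v : Pr K, (∑ᶠ (_ : fv v (cd x l) < mx v x), Real.log (Ideal.absNorm v.asIdeal : ℝ)) =
      if v ∈ (P l).support then Real.log (Nv v) else 0 := by
    intro v
    rw [finsum_eq_if]
    refine if_congr ?_ rfl rfl
    rw [Finsupp.mem_support_iff, ne_P h0 h1 hP]
  rw [finsum_congr e1, finsum_eq_sum_of_support_subset (s := (P l).support)]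
  · exact Finset.sum_congr rfl fun v hv => if_pos hv
  · intro v hv
    by_contra h
    exact hv (if_neg h)

/-- the radical -/
theorem rad_all : R3 ∅ (cd x) = tr P := by
  classical
  unfold R3 tr
  have e1 : ∀ v : Pr K, (∑ᶠ (_ : v ∉ (∅ : Set (Pr K)) ∧ ¬ (FinitePlace.mk v (cd x 0) =
      FinitePlace.mk v (cd x 1) ∧ FinitePlace.mk v (cd x 1) = FinitePlace.mk v (cd x 2))),
      Real.log (Ideal.absNorm v.asIdeal : ℝ)) =
      if v ∈ sp P then Real.log (Nv v) else 0 := by
    intro v
    rw [finsum_eq_if]
    refine if_congr ?_ rfl rfl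
    unfold sp
    rw [mem_biUnion]
    have k1 : ∀ l, FinitePlace.mk v (cd x l) = fv v (cd x l) := fun _ => rfl
    have k2 := max_cd v x
    rw [k1, k1, k1]
    constructor
    · rintro ⟨-, h⟩
      by_contra hcon
      push Not at hcon
      have k3 : ∀ l, fv v (cd x l) = mx v x := by
        intro l
        have := hcon l (mem_univ l)
        rw [Finsupp.mem_support_iff, ne_P h0 h1 hP, not_lt] at this
        exact le_antisymm (cd_le v x l) this
      exact h ⟨by rw [k3 0, k3 1], by rw [k3 1, k3 2]⟩
    · rintro ⟨l, -, hl⟩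
      rw [Finsupp.mem_support_iff, ne_P h0 h1 hP] at hl
      refine ⟨Set.notMem_empty v, ?_⟩
      rintro ⟨a, b⟩
      rw [← b, ← a, max_self, max_self] at k2
      fin_cases l
      · exact hl.ne k2
      · exact hl.ne (a.symm.trans k2)
      · exact hl.ne (b.symm.trans (a.symm.trans k2))
  rw [finsum_congr e1, finsum_eq_sum_of_support_subset (s := sp P)]
  · exact Finset.sum_congr rfl fun v hv => if_pos hv
  · intro v hv
    by_contra h
    exact hv (if_neg h)

/-- the norm of the coordinate -/
theorem full_at (l : Fin 3) :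
    ∑ᶠ v : Pr K, Real.log (mx v x / fv v (cd x l)) = len (P l) := by
  classical
  rw [finsum_congr fun v => (P_log h0 h1 hP l v).symm,
    finsum_eq_sum_of_support_subset (s := (P l).support)]
  · rfl
  · intro v hv
    by_contra h
    apply hv
    show (P l v : ℝ) * Real.log (Nv v) = 0
    rw [Finsupp.notMem_support_iff.1 (by simpa using h), Nat.cast_zero, zero_mul]

/-- the primes whose square divides the coordinate -/
theorem sq_set (l : Fin 3) :
    {v : Pr K | fv v (cd x l) * (Nv v) ^ 2 ≤ mx v x} = ((sqf (P l)).support : Set (Pr K)) := by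
  ext v
  rw [Set.mem_ofPred_eq, ← le_P h0 h1 hP l v 2, Finset.mem_coe, Finsupp.mem_support_iff, sqf_apply]
  split_ifs with h
  · rw [h]
    simp
  · omega

end

end Pool.Agent.U663.SD
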