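import Pool.Agent.U663.SD.Asy

/-!
# Anatomy of the exceptions (helper663): the main upper bound

The points `x` with `N(x) ≤ (q - κ) h(x) + C₀` for which the defect is not equally distributed, or one
of the squareful parts has a property `Q` which gives a saving in Rankin's method, are few.
-/

set_option autoImplicit false
set_option linter.unusedSectionVars false

namespace Pool.Agent.U663.SD

open NumberField IsDedekindDomain Finset Filter Topology Pool.Agent.H691R3 Pool.Agent.W223.AK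
open Pool.Agent.N906.NT (Cx cst)
open Pool.Agent.N906.KG Pool.Agent.N575.QP

variable {K : Type} [Field K] [NumberField K] {q : ℕ}

variable (K) in
/-- the property `Q` (depending on `X`) gives a saving in Rankin's method if `Z ∼ b X` -/
def Sav (b : ℝ) (Q : ℝ → Idl K → Prop) : Prop :=
  ∃ η : ℝ, 0 < η ∧ η ≤ 1 ∧ ∃ r : ℝ, 0 < r ∧ ∃ X₀ : ℝ, ∀ X : ℝ, X₀ ≤ X → ∀ y : ℝ, |y - b| ≤ r →
    ∀ (T : ℝ) (F : Finset (Idl K)), T ≤ y * (X + 1) →
      (∀ a ∈ F, (∀ v, a v ≠ 1) ∧ T ≤ len a - rl a ∧ Q X a) →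
      ∑ a ∈ F, Real.exp (-len a) ≤ Real.exp (-T + (2 - η) * YY (y * (X + 1)))

/-- the ideals of a point of a class -/
theorem len_le {α : Fin q → K × K} {S : Finset (Pr K)} {C : ℝ}
    {c : ℕ × (Pl K → Fin q) × (Pl K → ℕ)} {x : K} (h : Ic α S C c x) {P : Fin q → Idl K}
    (hP : IsP S α x P) (l : Fin q) : len (P l) ≤ hr (aff x) - kl S c l + q * C := by
  have h1 : ∑ l', (len (P l') - (hr (aff x) - kl S c l' - C)) ≤ C + q * C := by
    have h2 := h.le P hP
    have h3 : ∑ l', (len (P l') - (hr (aff x) - kl S c l' - C)) =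
        tl P - q * hr (aff x) + kt S c + q * C := by
      rw [Finset.sum_sub_distrib, Finset.sum_sub_distrib, Finset.sum_sub_distrib, kl_sum,
        Finset.sum_const, Finset.sum_const, Finset.card_univ, Fintype.card_fin, nsmul_eq_mul,
        nsmul_eq_mul]
      unfold tl
      ring
    linarith
  have h4 := Finset.single_le_sum (f := fun l' => len (P l') - (hr (aff x) - kl S c l' - C))
    (fun l' _ => by have := h.ge P hP l'; linarith) (mem_univ l)
  linarith

theorem rl_le_len (a : Idl K) : rl a ≤ len a := by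
  unfold rl len
  refine Finset.sum_le_sum fun v hv => ?_
  have h1 : (1 : ℝ) ≤ a v := by
    exact_mod_cast Nat.one_le_iff_ne_zero.2 (Finsupp.mem_support_iff.1 hv)
  have := lg v
  nlinarith

/-- the bound for one class -/
theorem class_bound (hq : 1 ≤ q) {κ₁ : ℝ} (hκ₁ : κ₁ ≤ 1) {α : Fin q → K × K}
    {S : Finset (Pr K)} {A C C₀ : ℝ} (hA : 0 ≤ A) (hC : 0 < C) (hC₀ : 0 ≤ C₀)
    (hcell : CB α S A)
    (h1 : ∀ x, Of α x → ∀ P, IsP S α x P → ∀ l l', l ≠ l' → Cop (P l) (P l'))
    {κ b a ε e δ w η η' r g : ℝ} (hb : 0 < b) (ha : 0 < a) (ha1 : a ≤ 1) (hab : a ^ 2 = b)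
    (hqb : q * b = κ) (hε : 0 < ε) (he : 0 < e) (her : e ≤ r / 2) (heb : e ≤ b / 2)
    (heε : q * e ≤ ε / 16) (hδ : 0 < δ) (hδe : δ ≤ e ^ 2 / 16) (hδκ : κ + 2 * δ ≤ κ₁)
    (hδg : δ / a ≤ g / 16) (hδε : δ ≤ ε / 32) (hw : 0 < w) (hwg : q * √w ≤ g / 16)
    (hw1 : w ≤ 1) (hwr : w ≤ r / 2)
    (hη' : 0 < η') (hη'1 : η' ≤ 1) (hη'g : 2 * q * η' ≤ g / 16) (hη : 0 < η) (hη1 : η ≤ 1)
    (hg : 0 < g) (hge : g ≤ e ^ 2 / 16) (hga : g ≤ η * a / 8)
    (l₀ : Fin q) {Q : ℝ → Idl K → Prop} {X : ℝ}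
    (hX1 : 1 ≤ X) (hX2 : 2 * q * (q * C) / δ ≤ X) (hX3 : (C₀ + q * C + 2) * 16 / ε ≤ X)
    (hX4 : (C₀ + q * C + C + 2) * 16 / ε ≤ X)
    (hup : ∀ y : ℝ, w ≤ y → YY (y * (X + 1)) ≤ (1 + η' / 4) * (√y * √(2 * X / Real.log X)))
    (hlo : ∀ y : ℝ, w ≤ y → y ≤ 2 →
      (1 - 1 / 2) * (√y * √(2 * X / Real.log X)) ≤ YY (y * (X + 1)))
    (hrA : ∀ (Z T : ℝ) (F : Finset (Idl K)), w * (X + 1) ≤ Z → T ≤ Z →
      (∀ a ∈ F, (∀ v, a v ≠ 1) ∧ T ≤ len a - rl a) →
      ∑ a ∈ F, Real.exp (-len a) ≤ Real.exp (-T + (2 + η' / 4) * YY Z))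
    (hQ : ∀ y : ℝ, |y - b| ≤ r → ∀ (T : ℝ) (F : Finset (Idl K)), T ≤ y * (X + 1) →
      (∀ a ∈ F, (∀ v, a v ≠ 1) ∧ T ≤ len a - rl a ∧ Q X a) →
      ∑ a ∈ F, Real.exp (-len a) ≤ Real.exp (-T + (2 - η) * YY (y * (X + 1))))
    {c : ℕ × (Pl K → Fin q) × (Pl K → ℕ)} (hc : (c.1 : ℝ) ≤ X + 1)
    (P : K → Fin q → Idl K) (n : Fin q → ℕ) {G : Finset K}
    (hG : ∀ x ∈ G, Of α x ∧ Ic α S C c x ∧ IsP S α x (P x) ∧ X / 2 < hr (aff x) ∧
      ((q : ℝ) - (κ + δ)) * hr (aff x) < tr (P x) ∧
      tr (P x) ≤ ((q : ℝ) - κ) * hr (aff x) + C₀ ∧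
      (∀ l, (n l : ℝ) ≤ X * max 0 (1 - rl (P x l) / hr (aff x)) ∧
        X * max 0 (1 - rl (P x l) / hr (aff x)) < n l + 1) ∧
      ((∃ l, ε * hr (aff x) < |rl (P x l) - (1 - b) * hr (aff x)| + C₀ ∨
        ε * hr (aff x) < hr (aff x) - len (P x l) + C₀) ∨ Q X (sqf (P x l₀)))) :
    (G.card : ℝ) ≤ A * (1 + Real.exp (2 * C)) * Real.exp (q * (1 + C + q * C)) *
      Real.exp (2 + 2 * (2 * C₀ + q)) *
      Real.exp ((2 - κ) * X + (q * a - 3 / 4 * g) * √(8 * X / Real.log X)) := by
  classical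
  rcases G.eq_empty_or_nonempty with rfl | ⟨x₀, hx₀⟩
  · rw [card_empty]
    push_cast
    positivity
  have hX0 : 0 < X := by linarith
  have hq0 : (0 : ℝ) < q := by exact_mod_cast hq
  have hq1 : (1 : ℝ) ≤ q := by exact_mod_cast hq
  have hqC : 0 ≤ q * C := by positivity
  obtain ⟨k, hk⟩ : ∃ k : Fin q → ℝ, k = fun l => (n l : ℝ) / X := ⟨_, rfl⟩
  have hk0 : ∀ l, 0 ≤ k l := by
    intro l
    rw [hk]
    positivity
  -- facts about the members
  have F0 : ∀ x ∈ G, 0 < hr (aff x) := by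
    intro x hx
    have := (hG x hx).2.2.2.1
    linarith
  have F1 : ∀ x ∈ G, ∀ l, k l ≤ max 0 (1 - rl (P x l) / hr (aff x)) ∧
      max 0 (1 - rl (P x l) / hr (aff x)) < k l + 1 / X := by
    intro x hx l
    obtain ⟨g1, g2⟩ := (hG x hx).2.2.2.2.2.2.1 l
    rw [hk]
    simp only
    constructor
    · rw [div_le_iff₀ hX0, mul_comm]
      exact g1
    · rw [← add_div, lt_div_iff₀ hX0, mul_comm]
      exact g2
  have Fl : ∀ x ∈ G, ∀ l, rl (P x l) ≤ hr (aff x) + q * C := by
    intro x hx l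
    have g1 := len_le (hG x hx).2.1 (hG x hx).2.2.1 l
    have g2 := rl_le_len (P x l)
    have g3 := kl0 S c l
    linarith
  have F2 : ∀ x ∈ G, ∀ l, rl (P x l) ≤ (1 - k l) * hr (aff x) + q * C := by
    intro x hx l
    have g1 := (F1 x hx l).1
    have g0 := F0 x hx
    rcases le_total 0 (1 - rl (P x l) / hr (aff x)) with h | h
    · rw [max_eq_right h] at g1
      have g3 : rl (P x l) / hr (aff x) ≤ 1 - k l := by linarith
      rw [div_le_iff₀ g0] at g3
      linarith
    · rw [max_eq_left h] at g1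
      have g3 : k l = 0 := le_antisymm g1 (hk0 l)
      rw [g3, sub_zero, one_mul]
      exact Fl x hx l
  have F3 : κ - (2 * C₀ + q) / X ≤ ∑ l, k l := by
    obtain ⟨g1, -, g2, g3, -, g4, -, -⟩ := hG x₀ hx₀
    have g0 := F0 x₀ hx₀
    have h2 := tr_eq (h1 x₀ g1 _ g2)
    have h3 : ∑ l, ((1 - rl (P x₀ l) / hr (aff x₀)) - 1 / X) ≤ ∑ l, k l := by
      refine Finset.sum_le_sum fun l _ => ?_
      have g5 := (F1 x₀ hx₀ l).2
      have g6 := le_max_right (0 : ℝ) (1 - rl (P x₀ l) / hr (aff x₀))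
      linarith
    refine le_trans ?_ h3
    rw [Finset.sum_sub_distrib, Finset.sum_sub_distrib, ← Finset.sum_div, ← h2, Finset.sum_const,
      Finset.sum_const, Finset.card_univ, Fintype.card_fin, nsmul_eq_mul, nsmul_eq_mul]
    have h4 : tr (P x₀) / hr (aff x₀) ≤ q - κ + 2 * C₀ / X := by
      rw [div_le_iff₀ g0]
      have h5 : C₀ ≤ 2 * C₀ / X * hr (aff x₀) := by
        rw [div_mul_eq_mul_div, le_div_iff₀ hX0]
        nlinarith
      linarith
    have h6 : (2 * C₀ + q) / X = 2 * C₀ / X + q * (1 / X) := by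
      field_simp
    rw [h6]
    linarith
  have F4 : ∑ l, k l ≤ κ + 2 * δ := by
    obtain ⟨g1, -, g2, g3, g4, -, -, -⟩ := hG x₀ hx₀
    have g0 := F0 x₀ hx₀
    have h2 := tr_eq (h1 x₀ g1 _ g2)
    have h3 : ∑ l, k l ≤ ∑ l, ((1 - rl (P x₀ l) / hr (aff x₀)) + 2 * (q * C) / X) := by
      refine Finset.sum_le_sum fun l _ => ?_
      refine (F1 x₀ hx₀ l).1.trans ?_
      have h5 : rl (P x₀ l) / hr (aff x₀) ≤ 1 + 2 * (q * C) / X := by
        rw [div_le_iff₀ g0]
        have h6 := Fl x₀ hx₀ l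
        have h7 : q * C ≤ 2 * (q * C) / X * hr (aff x₀) := by
          rw [div_mul_eq_mul_div, le_div_iff₀ hX0]
          nlinarith
        linarith
      have h8 : 0 ≤ 2 * (q * C) / X := by positivity
      refine max_le ?_ ?_ <;> linarith
    refine h3.trans ?_
    rw [Finset.sum_add_distrib, Finset.sum_sub_distrib, ← Finset.sum_div, ← h2, Finset.sum_const,
      Finset.sum_const, Finset.card_univ, Fintype.card_fin, nsmul_eq_mul, nsmul_eq_mul]
    have h4 : (q : ℝ) - (κ + δ) ≤ tr (P x₀) / hr (aff x₀) := by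
      rw [le_div_iff₀ g0]
      exact g4.le
    have h5 : q * (2 * (q * C) / X) ≤ δ := by
      rw [div_le_iff₀ hδ] at hX2
      rw [← mul_div_assoc, div_le_iff₀ hX0]
      linarith
    linarith
  have hks : ∑ l, k l ≤ 1 := by linarith
  have hk1 : ∀ l, k l ≤ 1 := by
    intro l
    exact (Finset.single_le_sum (f := k) (fun l _ => hk0 l) (mem_univ l)).trans hks
  -- the parameters of the class
  obtain ⟨t, ht⟩ : ∃ t : Fin q → ℝ, t = fun l => max 0 (k l * c.1 - kl S c l) / (X + 1) :=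
    ⟨_, rfl⟩
  have hX10 : 0 < X + 1 := by linarith
  have ht0 : ∀ l, 0 ≤ t l := by
    intro l
    rw [ht]
    exact div_nonneg (le_max_left _ _) hX10.le
  have htk : ∀ l, t l ≤ k l := by
    intro l
    rw [ht]
    simp only
    rw [div_le_iff₀ hX10]
    apply max_le (mul_nonneg (hk0 l) hX10.le)
    have g1 := kl0 S c l
    have g2 := mul_le_mul_of_nonneg_left hc (hk0 l)
    linarith
  have ht1 : ∀ l, t l ≤ 1 := fun l => (htk l).trans (hk1 l)
  have hts : ∑ l, t l ≤ q * a ^ 2 + 2 * δ := by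
    rw [hab, hqb]
    exact (Finset.sum_le_sum fun l _ => htk l).trans F4
  have hZ : ∀ l, k l * c.1 - kl S c l ≤ (t l + w) * (X + 1) := by
    intro l
    have g1 : k l * c.1 - kl S c l ≤ t l * (X + 1) := by
      rw [ht]
      simp only
      rw [div_mul_cancel₀ _ hX10.ne']
      exact le_max_right _ _
    nlinarith
  obtain ⟨V, hV⟩ : ∃ V : ℝ, V = √(2 * X / Real.log X) := ⟨_, rfl⟩
  have hV0 : 0 ≤ V := by rw [hV]; exact Real.sqrt_nonneg _
  have hW : √(8 * X / Real.log X) = 2 * V := by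
    rw [hV, show 8 * X / Real.log X = 2 ^ 2 * (2 * X / Real.log X) by ring,
      Real.sqrt_mul (by norm_num), Real.sqrt_sq (by norm_num)]
  rw [← hV] at hup hlo
  obtain ⟨y, hy⟩ : ∃ y : Fin q → ℝ, y = fun l => t l + w := ⟨_, rfl⟩
  have hyw : ∀ l, w ≤ y l := by
    intro l
    rw [hy]
    simp only
    linarith [ht0 l]
  have hYu : ∀ l, YY (y l * (X + 1)) ≤ (1 + η' / 4) * (√(y l) * V) := fun l => hup _ (hyw l)
  have hys : ∀ l, √(y l) ≤ √(t l) + √w := by
    intro l
    rw [hy]
    apply Real.sqrt_le_iff.2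
    have g1 := Real.sqrt_nonneg (t l)
    have g2 := Real.sqrt_nonneg w
    refine ⟨by positivity, ?_⟩
    rw [add_sq, Real.sq_sqrt (ht0 l), Real.sq_sqrt hw.le]
    have := mul_nonneg g1 g2
    simp only
    linarith
  have hsy : ∑ l, √(y l) ≤ ∑ l, √(t l) + q * √w := by
    refine (Finset.sum_le_sum fun l _ => hys l).trans ?_
    rw [Finset.sum_add_distrib, Finset.sum_const, Finset.card_univ, Fintype.card_fin, nsmul_eq_mul]
  have hst1 : ∑ l, √(t l) ≤ q := by
    refine (Finset.sum_le_sum fun l _ => Real.sqrt_le_one.2 (ht1 l)).trans ?_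
    rw [Finset.sum_const, Finset.card_univ, Fintype.card_fin, nsmul_eq_mul, mul_one]
  have hsw : √w ≤ 1 := Real.sqrt_le_one.2 hw1
  have hRA : ∑ l, (2 + η' / 4) * YY (y l * (X + 1)) ≤
      (∑ l, √(t l) + g / 16 + g / 16) * (2 * V) := by
    rw [← Finset.mul_sum]
    have g1 : ∑ l, YY (y l * (X + 1)) ≤ (1 + η' / 4) * ((∑ l, √(y l)) * V) := by
      rw [Finset.sum_mul, Finset.mul_sum]
      exact Finset.sum_le_sum fun l _ => hYu l
    have g2 : (2 + η' / 4) * (1 + η' / 4) ≤ 2 * (1 + η') := by nlinarith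
    have g3 : 0 ≤ (∑ l, √(y l)) * V :=
      mul_nonneg (Finset.sum_nonneg fun l _ => Real.sqrt_nonneg _) hV0
    calc (2 + η' / 4) * ∑ l, YY (y l * (X + 1)) ≤
        (2 + η' / 4) * ((1 + η' / 4) * ((∑ l, √(y l)) * V)) :=
          mul_le_mul_of_nonneg_left g1 (by positivity)
      _ = ((2 + η' / 4) * (1 + η' / 4)) * ((∑ l, √(y l)) * V) := by ring
      _ ≤ (2 * (1 + η')) * ((∑ l, √(y l)) * V) := mul_le_mul_of_nonneg_right g2 g3
      _ = ((1 + η') * ∑ l, √(y l)) * (2 * V) := by ring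
      _ ≤ _ := by
          apply mul_le_mul_of_nonneg_right _ (by positivity)
          have g4 : ∑ l, √(y l) ≤ 2 * q := by nlinarith
          have g5 : η' * ∑ l, √(y l) ≤ η' * (2 * q) := mul_le_mul_of_nonneg_left g4 hη'.le
          linarith
  have hA0 : 0 ≤ A * (1 + Real.exp (2 * C)) * Real.exp (q * (1 + C + q * C)) := by positivity
  have hfinal : ∀ R : Fin q → ℝ, ∑ l, R l ≤ (q * a - 3 / 4 * g) * (2 * V) →
      (G.card : ℝ) ≤ A * (1 + Real.exp (2 * C)) * Real.exp (q * (1 + C + q * C)) *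
        Real.exp ((2 - ∑ l, k l) * (X + 1) + ∑ l, R l) →
      (G.card : ℝ) ≤ A * (1 + Real.exp (2 * C)) * Real.exp (q * (1 + C + q * C)) *
      Real.exp (2 + 2 * (2 * C₀ + q)) *
      Real.exp ((2 - κ) * X + (q * a - 3 / 4 * g) * √(8 * X / Real.log X)) := by
    intro R hR hcard
    refine hcard.trans ?_
    rw [mul_assoc _ (Real.exp (2 + 2 * (2 * C₀ + q))), ← Real.exp_add]
    apply mul_le_mul_of_nonneg_left _ hA0
    apply Real.exp_le_exp.2
    rw [hW]
    have g1 : (2 - ∑ l, k l) * (X + 1) ≤ (2 - κ + (2 * C₀ + q) / X) * (X + 1) :=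
      mul_le_mul_of_nonneg_right (by linarith) hX10.le
    have g2 : (2 * C₀ + q) / X * (X + 1) ≤ 2 * (2 * C₀ + q) := by
      rw [div_mul_eq_mul_div, div_le_iff₀ hX0]
      have : 0 ≤ 2 * C₀ + q := by positivity
      nlinarith
    have g3 : 0 < κ := by rw [← hqb]; positivity
    nlinarith
  by_cases hdev : ∃ l₁, e ≤ |t l₁ - b|
  · -- the defect is not equally distributed
    obtain ⟨l₁, hl₁⟩ := hdev
    refine hfinal (fun l => (2 + η' / 4) * YY (y l * (X + 1))) ?_ ?_
    · refine hRA.trans ?_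
      apply mul_le_mul_of_nonneg_right _ (by positivity)
      have g1 := sqrt_sum ha ht0 hts l₁
      have g2 := sqrt_dev ha.le ha1 hab (ht0 l₁) (ht1 l₁) he.le hl₁
      have g3 : (2 * δ - (√(t l₁) - a) ^ 2) / (2 * a) ≤ -(e ^ 2 / 16) := by
        rw [div_le_iff₀ (by positivity)]
        have g4 : 2 * δ - (√(t l₁) - a) ^ 2 ≤ -(e ^ 2 / 8) := by linarith
        have g5 : e ^ 2 / 16 * (2 * a) ≤ e ^ 2 / 16 * 2 :=
          mul_le_mul_of_nonneg_left (by linarith) (by positivity)
        linarith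
      linarith
    · refine clsQ (κ' := κ₁) (Q := fun _ _ => True) (Z := fun l => y l * (X + 1)) hA hC.le hqC hk0 hk1
        (by linarith) hκ₁ hcell hc ?_ ?_ ?_
      · intro l
        rw [hy]
        exact hZ l
      · intro l T F' hT hF'
        refine hrA _ T F' ?_ hT fun a ha => ⟨(hF' a ha).1, (hF' a ha).2.1⟩
        exact mul_le_mul_of_nonneg_right (hyw l) hX10.le
      · intro x hx
        obtain ⟨g1, g2, g3, g4, g5, -, -, -⟩ := hG x hx
        refine ⟨g1, g2, P x, g3, F2 x hx, ?_, fun _ => trivial⟩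
        have g0 := F0 x hx
        have g6 : ((q : ℝ) - κ₁) * hr (aff x) ≤ (q - (κ + δ)) * hr (aff x) :=
          mul_le_mul_of_nonneg_right (by linarith) g0.le
        linarith
  · push Not at hdev
    -- equally distributed
    have e1 : ∀ l, b - e < t l ∧ t l < b + e := by
      intro l
      have := abs_lt.1 (hdev l)
      constructor <;> linarith [this.1, this.2]
    have e2 : ∀ l, k l ≤ b + 2 * δ + q * e := by
      intro l
      have g1 : k l + ∑ l' ∈ univ.erase l, k l' = ∑ l', k l' := Finset.add_sum_erase _ _ (mem_univ l)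
      have g2 : ((q : ℝ) - 1) * (b - e) ≤ ∑ l' ∈ univ.erase l, k l' := by
        have g3 : ∑ l' ∈ (univ : Finset (Fin q)).erase l, (b - e) ≤
            ∑ l' ∈ univ.erase l, k l' :=
          Finset.sum_le_sum fun l' _ => by linarith [(e1 l').1, htk l']
        rw [Finset.sum_const, Finset.card_erase_of_mem (mem_univ l), Finset.card_univ,
          Fintype.card_fin, nsmul_eq_mul, Nat.cast_sub hq, Nat.cast_one] at g3
        exact g3
      have g4 : ((q : ℝ) - 1) * (b - e) = κ - b - q * e + e := by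
        rw [← hqb]; ring
      linarith
    have e3 : ∀ l, kl S c l ≤ (2 * δ + (q + 1) * e) * (X + 1) := by
      intro l
      have g1 : 0 < t l := by linarith [(e1 l).1]
      have g2 : t l * (X + 1) = max 0 (k l * c.1 - kl S c l) := by
        rw [ht]
        simp only
        rw [div_mul_cancel₀ _ hX10.ne']
      have g3 : max 0 (k l * c.1 - kl S c l) = k l * c.1 - kl S c l := by
        rcases le_total 0 (k l * c.1 - kl S c l) with h | h
        · exact max_eq_right h
        · exfalso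
          rw [max_eq_left h] at g2
          have : 0 < t l * (X + 1) := mul_pos g1 hX10
          linarith
      rw [g3] at g2
      have g4 : k l * c.1 ≤ k l * (X + 1) := mul_le_mul_of_nonneg_left hc (hk0 l)
      have g5 : kl S c l ≤ (k l - t l) * (X + 1) := by linarith
      refine g5.trans (mul_le_mul_of_nonneg_right ?_ hX10.le)
      linarith [e2 l, (e1 l).1]
    have hsmall : 2 * δ + (q + 1) * e ≤ ε / 4 - ε / 16 := by
      have : e ≤ q * e := by nlinarith
      linarith
    have hnota : ∀ x ∈ G, Q X (sqf (P x l₀)) := by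
      intro x hx
      have g0 := F0 x hx
      obtain ⟨g1, g2, g3, g4, g5, g6, g7, g8⟩ := hG x hx
      rcases g8 with ⟨l, h | h⟩ | h
      · exfalso
        -- the size of the radical
        have k1 : 0 < k l := by linarith [(e1 l).1, htk l]
        obtain ⟨k2, k3⟩ := F1 x hx l
        have k4 : max 0 (1 - rl (P x l) / hr (aff x)) = 1 - rl (P x l) / hr (aff x) := by
          rcases le_total 0 (1 - rl (P x l) / hr (aff x)) with h' | h'
          · exact max_eq_right h'
          · rw [max_eq_left h'] at k2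
            linarith
        rw [k4] at k2 k3
        have k5 : |rl (P x l) - (1 - b) * hr (aff x)| ≤ (2 * δ + q * e + 1 / X) * hr (aff x) := by
          have k6 : rl (P x l) - (1 - b) * hr (aff x) =
              (b - (1 - rl (P x l) / hr (aff x))) * hr (aff x) := by
            field_simp
            ring
          rw [k6, abs_mul, abs_of_pos g0]
          apply mul_le_mul_of_nonneg_right _ g0.le
          rw [abs_le]
          have k7 := e2 l
          have k8 := (e1 l).1
          have k9 := htk l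
          have k10 : 0 < 1 / X := by positivity
          have k11 : e ≤ q * e := by nlinarith
          constructor <;> linarith
        have k12 : (2 * δ + q * e + 1 / X) * hr (aff x) ≤ ε / 2 * hr (aff x) := by
          apply mul_le_mul_of_nonneg_right _ g0.le
          have k13 : 1 / X ≤ ε / 16 := by
            rw [div_le_iff₀ hX0]
            rw [div_le_iff₀ hε] at hX3
            nlinarith
          linarith
        have k14 : C₀ < ε / 2 * hr (aff x) := by
          rw [div_le_iff₀ hε] at hX3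
          nlinarith
        linarith
      · exfalso
        have k1 := g2.ge (P x) g3 l
        have k2 := e3 l
        have k3 : (2 * δ + (q + 1) * e) * (X + 1) ≤ (ε / 4 - ε / 16) * (X + 1) :=
          mul_le_mul_of_nonneg_right hsmall hX10.le
        rw [div_le_iff₀ hε] at hX4
        have k5 : ε * (X / 2) < ε * hr (aff x) := mul_lt_mul_of_pos_left g4 hε
        have k6 : ε ≤ ε * X := by nlinarith
        nlinarith
      · exact h
    refine hfinal (fun l => if l = l₀ then (2 - η) * YY (y l * (X + 1)) else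
      (2 + η' / 4) * YY (y l * (X + 1))) ?_ ?_
    · have g1 : ∑ l, (if l = l₀ then (2 - η) * YY (y l * (X + 1)) else
          (2 + η' / 4) * YY (y l * (X + 1))) ≤
          ∑ l, (2 + η' / 4) * YY (y l * (X + 1)) - η * YY (y l₀ * (X + 1)) := by
        have g2 : ∀ l, (if l = l₀ then (2 - η) * YY (y l * (X + 1)) else
            (2 + η' / 4) * YY (y l * (X + 1))) ≤ (2 + η' / 4) * YY (y l * (X + 1)) -
              (if l = l₀ then η * YY (y l * (X + 1)) else 0) := by
          intro l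
          have := YY_nonneg (y l * (X + 1))
          split_ifs
          · nlinarith
          · linarith
        refine (Finset.sum_le_sum fun l _ => g2 l).trans ?_
        rw [Finset.sum_sub_distrib, Finset.sum_ite_eq' univ l₀]
        simp
      have g3 := sqrt_sum0 ha ht0 hts l₀
      have g4 : a / 2 * V * (1 / 2) ≤ YY (y l₀ * (X + 1)) := by
        have g5 := hlo (y l₀) (hyw l₀) (by rw [hy]; simp only; linarith [ht1 l₀])
        have g6 : a / 2 ≤ √(y l₀) := by
          apply Real.le_sqrt_of_sq_le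
          rw [div_pow, hab, hy]
          simp only
          linarith [(e1 l₀).1]
        have g7 := mul_le_mul_of_nonneg_right g6 hV0
        linarith
      have g5 : η * (a / 2 * V * (1 / 2)) ≤ η * YY (y l₀ * (X + 1)) :=
        mul_le_mul_of_nonneg_left g4 hη.le
      refine g1.trans ?_
      have g6 : (∑ l, √(t l) + g / 16 + g / 16) * (2 * V) ≤ (q * a + 3 / 16 * g) * (2 * V) :=
        mul_le_mul_of_nonneg_right (by linarith) (by positivity)
      have g7 : g * (2 * V) ≤ η * (a / 2 * V * (1 / 2)) := by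
        have := mul_le_mul_of_nonneg_right hga hV0
        linarith
      have g8 : 0 ≤ g * V := by positivity
      linarith
    · refine clsQ (κ' := κ₁) (Q := fun l a => l = l₀ → Q X a) (Z := fun l => y l * (X + 1))
        hA hC.le hqC hk0 hk1 (by linarith) hκ₁ hcell hc ?_ ?_ ?_
      · intro l
        rw [hy]
        exact hZ l
      · intro l T F' hT hF'
        split_ifs with hl
        · refine hQ (y l) ?_ T F' hT fun a ha => ⟨(hF' a ha).1, (hF' a ha).2.1, (hF' a ha).2.2 hl⟩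
          rw [hy, abs_le]
          simp only
          constructor <;> linarith [(e1 l).1, (e1 l).2]
        · refine hrA _ T F' ?_ hT fun a ha => ⟨(hF' a ha).1, (hF' a ha).2.1⟩
          exact mul_le_mul_of_nonneg_right (hyw l) hX10.le
      · intro x hx
        obtain ⟨g1, g2, g3, g4, g5, -, -, -⟩ := hG x hx
        refine ⟨g1, g2, P x, g3, F2 x hx, ?_, fun l hl => ?_⟩
        · have g0 := F0 x hx
          have g6 : ((q : ℝ) - κ₁) * hr (aff x) ≤ (q - (κ + δ)) * hr (aff x) :=
            mul_le_mul_of_nonneg_right (by linarith) g0.le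
          linarith
        · rw [hl]
          exact hnota x hx

end Pool.Agent.U663.SD
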