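import Pool.Agent.U663.SD.Ratio
import Pool.Agent.N348.QP_FINT

/-!
# Anatomy of the exceptions (helper663): abc triples of integers
-/

set_option autoImplicit false
set_option linter.unusedSectionVars false

namespace Pool.Agent.U663.SD

open NumberField IsDedekindDomain Finset Filter Topology Pool.Agent.H691R3 Pool.Agent.W223.AK
open Pool.Agent.N906.KG Pool.Agent.N575.QP Pool.Agent.N348.QP Pool.Agent.H813R3.Abc

/-- `- log |p|_v = log p` for the prime `p` of `v` -/
theorem log_fv_pr (v : HeightOneSpectrum (𝓞 ℚ)) : -Real.log (fv v ((pr v : ℕ) : ℚ)) = Real.log (pr v) := by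
  have hp := pr_prime v
  have hp' : ((pr v : ℕ) : ℚ) ≠ 0 := by exact_mod_cast hp.ne_zero
  have hpf := log_product_formula (K := ℚ) hp'
  have e1 : ∀ w : InfinitePlace ℚ, (w.mult : ℝ) * Real.log (w ((pr v : ℕ) : ℚ)) =
      w.mult * Real.log (pr v) := by
    intro w
    rw [InfinitePlace.map_natCast]
  have hsum : ∑ w : InfinitePlace ℚ, (w.mult : ℝ) = 1 := by
    have := InfinitePlace.sum_mult_eq (K := ℚ)
    rw [Module.finrank_self] at this
    exact_mod_cast this
  rw [Finset.sum_congr rfl fun w _ => e1 w, ← Finset.sum_mul, hsum, one_mul] at hpf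
  have e2 : ∑ᶠ v' : HeightOneSpectrum (𝓞 ℚ), Real.log (fv v' ((pr v : ℕ) : ℚ)) =
      Real.log (fv v ((pr v : ℕ) : ℚ)) := by
    refine finsum_eq_single _ v fun v' hv' => ?_
    have h1 : ¬ pr v' ∣ pr v := by
      intro h
      exact hv' (pr_inj ((Nat.prime_dvd_prime_iff_eq (pr_prime v') hp).1 h))
    rw [(fv_nat_eq_one v' (pr v)).2 h1, Real.log_one]
  rw [e2] at hpf
  linarith

theorem log_fv_nat (v : HeightOneSpectrum (𝓞 ℚ)) {n : ℕ} (hn : n ≠ 0) :
    -Real.log (fv v (n : ℚ)) = (n.factorization (pr v) : ℝ) * Real.log (pr v) := by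
  have hp := pr_prime v
  obtain ⟨m, hm⟩ : ∃ m, m = n / (pr v) ^ n.factorization (pr v) := ⟨_, rfl⟩
  have h1 : (pr v) ^ n.factorization (pr v) * m = n := by
    rw [hm]
    exact Nat.ordProj_mul_ordCompl_eq_self n (pr v)
  have h2 : ¬ pr v ∣ m := by
    rw [hm]
    exact Nat.not_dvd_ordCompl hp hn
  have h3 : (n : ℚ) = ((pr v : ℕ) : ℚ) ^ n.factorization (pr v) * (m : ℚ) := by
    exact_mod_cast h1.symm
  have h4 : fv v (n : ℚ) = fv v ((pr v : ℕ) : ℚ) ^ n.factorization (pr v) := by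
    rw [h3, map_mul, map_pow, (fv_nat_eq_one v m).2 h2, mul_one]
  rw [h4, Real.log_pow, ← log_fv_pr v]
  ring

section

variable {a b : ℕ}

/-- the exponents of the ideals -/
theorem P_eq (ha : 0 < a) (hb : 0 < b) (hab : Nat.Coprime a b) {P : Fin 3 → Idl ℚ}
    (hP : N906.KG.IsP ∅ a3 ((a : ℚ) / b) P) (l : Fin 3) (v : HeightOneSpectrum (𝓞 ℚ)) :
    P l v = (mm a b l).factorization (pr v) := by
  have h2 := hP.2 l v (Finset.notMem_empty v)
  rw [lam_eq3 ha hb hab, log_fv_nat v (mm_ne ha hb l), Nv_eq] at h2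
  have h3 : (0 : ℝ) < Real.log (pr v) := Real.log_pos (by exact_mod_cast (pr_prime v).one_lt)
  have h4 := mul_right_cancel₀ h3.ne' h2
  exact_mod_cast h4.symm

theorem supp_eq (ha : 0 < a) (hb : 0 < b) (hab : Nat.Coprime a b) {P : Fin 3 → Idl ℚ}
    (hP : N906.KG.IsP ∅ a3 ((a : ℚ) / b) P) (l : Fin 3) :
    (P l).support.image pr = (mm a b l).primeFactors := by
  classical
  ext p
  rw [Finset.mem_image, Nat.mem_primeFactors]
  constructor
  · rintro ⟨v, hv, rfl⟩
    rw [Finsupp.mem_support_iff, P_eq ha hb hab hP l v] at hv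
    exact ⟨pr_prime v, Nat.dvd_of_factorization_pos hv, mm_ne ha hb l⟩
  · rintro ⟨hp, hd, hn⟩
    obtain ⟨v, rfl⟩ := exists_pr hp
    refine ⟨v, ?_, rfl⟩
    rw [Finsupp.mem_support_iff, P_eq ha hb hab hP l v]
    exact (hp.factorization_pos_of_dvd hn hd).ne'

theorem len_eq (ha : 0 < a) (hb : 0 < b) (hab : Nat.Coprime a b) {P : Fin 3 → Idl ℚ}
    (hP : N906.KG.IsP ∅ a3 ((a : ℚ) / b) P) (l : Fin 3) :
    len (P l) = Real.log (mm a b l) := by
  classical
  have hn := mm_ne ha hb l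
  have h1 : ((∏ p ∈ (mm a b l).primeFactors, p ^ (mm a b l).factorization p : ℕ) : ℝ) =
      (mm a b l : ℕ) := by
    have := Nat.prod_factorization_pow_eq_self hn
    exact_mod_cast this
  rw [← h1, Nat.cast_prod, Real.log_prod, ← supp_eq ha hb hab hP l,
    Finset.sum_image fun v _ w _ h => pr_inj h]
  · unfold len
    refine Finset.sum_congr rfl fun v _ => ?_
    rw [P_eq ha hb hab hP l v, Nv_eq, Nat.cast_pow, Real.log_pow]
  · intro p hp
    have := (Nat.prime_of_mem_primeFactors hp).pos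
    exact_mod_cast (pow_pos this _).ne'

/-- the primes whose square divides `n` -/
def sqp (n : ℕ) : Finset ℕ := n.primeFactors.filter fun p => p ^ 2 ∣ n

theorem sqf_supp (ha : 0 < a) (hb : 0 < b) (hab : Nat.Coprime a b) {P : Fin 3 → Idl ℚ}
    (hP : N906.KG.IsP ∅ a3 ((a : ℚ) / b) P) (l : Fin 3) :
    (sqf (P l)).support.image pr = sqp (mm a b l) := by
  classical
  have hn := mm_ne ha hb l
  ext p
  unfold sqp
  rw [Finset.mem_image, Finset.mem_filter, Nat.mem_primeFactors]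
  constructor
  · rintro ⟨v, hv, rfl⟩
    rw [Finsupp.mem_support_iff, sqf_apply, P_eq ha hb hab hP l v] at hv
    have h1 : 2 ≤ (mm a b l).factorization (pr v) := by
      split_ifs at hv with h
      · exact absurd rfl hv
      · omega
    have h2 : (pr v) ^ 2 ∣ mm a b l := (pr_prime v).pow_dvd_iff_le_factorization hn |>.2 h1
    exact ⟨⟨pr_prime v, (dvd_pow_self _ two_ne_zero).trans h2, hn⟩, h2⟩
  · rintro ⟨⟨hp, -, -⟩, hd⟩
    obtain ⟨v, rfl⟩ := exists_pr hp
    refine ⟨v, ?_, rfl⟩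
    rw [Finsupp.mem_support_iff, sqf_apply, P_eq ha hb hab hP l v]
    have h1 := (hp.pow_dvd_iff_le_factorization hn).1 hd
    rw [if_neg (by omega)]
    omega

theorem sqf_card (ha : 0 < a) (hb : 0 < b) (hab : Nat.Coprime a b) {P : Fin 3 → Idl ℚ}
    (hP : N906.KG.IsP ∅ a3 ((a : ℚ) / b) P) (l : Fin 3) :
    (sqf (P l)).support.card = (sqp (mm a b l)).card := by
  classical
  rw [← sqf_supp ha hb hab hP l, Finset.card_image_of_injective _ pr_inj]

theorem rl_sqf (ha : 0 < a) (hb : 0 < b) (hab : Nat.Coprime a b) {P : Fin 3 → Idl ℚ}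
    (hP : N906.KG.IsP ∅ a3 ((a : ℚ) / b) P) (l : Fin 3) :
    rl (sqf (P l)) = Real.log ((∏ p ∈ sqp (mm a b l), p : ℕ) : ℝ) := by
  classical
  unfold rl
  rw [← sqf_supp ha hb hab hP l, Finset.prod_image fun v _ w _ h => pr_inj h, Nat.cast_prod,
    Real.log_prod]
  · exact Finset.sum_congr rfl fun v _ => by rw [Nv_eq]
  · intro v _
    exact_mod_cast (pr_prime v).ne_zero

end

end Pool.Agent.U663.SD
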