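import Pool.Agent.U663.SD.Sav

/-!
# Anatomy of the exceptions (helper663): from bounds to proportions
-/

set_option autoImplicit false
set_option linter.unusedSectionVars false

namespace Pool.Agent.U663.SD

open NumberField IsDedekindDomain Finset Filter Topology Pool.Agent.H691R3 Pool.Agent.W223.AK
open Pool.Agent.N906.NT (Cx cst)
open Pool.Agent.N906.KG Pool.Agent.N575.QP

theorem W_tendsto : Tendsto (fun X : ℝ => √(8 * X / Real.log X)) atTop atTop := by
  have h := YY_tendsto.const_mul_atTop (show (0 : ℝ) < 2 by norm_num)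
  refine h.congr fun X => ?_
  unfold YY
  rw [show 8 * X / Real.log X = 2 ^ 2 * (2 * X / Real.log X) by ring,
    Real.sqrt_mul (by norm_num), Real.sqrt_sq (by norm_num)]

theorem ratio {κ s g L₀ : ℝ} (hκ : κ ≤ 2) (hg : 0 < g) (hgs : g ≤ s) (hL₀ : 0 ≤ L₀) {M N : ℝ → ℝ}
    (hM : ∃ X₀ : ℝ, ∀ X : ℝ, X₀ ≤ X →
      M X ≤ Real.exp ((2 - κ) * X + (s - g) * √(8 * X / Real.log X)) + 1)
    (hN : ∀ ε : ℝ, 0 < ε → ε < 1 → ∃ X₀ : ℝ, ∀ X : ℝ, X₀ ≤ X →
      Real.exp ((2 - κ) * X + (1 - ε) * (s * √(8 * X / Real.log X))) ≤ N (X + L₀)) :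
    ∃ η : ℝ, 0 < η ∧ ∀ᶠ X : ℝ in atTop, M X ≤ Real.exp (-(η * √(X / Real.log X))) * N X := by
  have hs : 0 < s := by linarith
  obtain ⟨ε, hε⟩ : ∃ ε : ℝ, ε = min (1 / 2) (g / (4 * s)) := ⟨_, rfl⟩
  have hε0 : 0 < ε := by rw [hε]; exact lt_min (by norm_num) (by positivity)
  have hε1 : ε < 1 := by rw [hε]; exact (min_le_left _ _).trans_lt (by norm_num)
  have hεg : ε * s ≤ g / 4 := by
    have : ε ≤ g / (4 * s) := by rw [hε]; exact min_le_right _ _
    calc ε * s ≤ g / (4 * s) * s := mul_le_mul_of_nonneg_right this hs.le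
      _ = g / 4 := by field_simp
  obtain ⟨X₁, h1⟩ := hM
  obtain ⟨X₂, h2⟩ := hN ε hε0 hε1
  refine ⟨g / 4, by positivity, ?_⟩
  have hev := (W_tendsto.eventually_ge_atTop ((Real.log 2 + (2 - κ) * L₀) * 4 / g))
  filter_upwards [hev, eventually_ge_atTop X₁, eventually_ge_atTop (X₂ + L₀),
    eventually_ge_atTop (L₀ / (1 - (1 - ε) ^ 2)), eventually_ge_atTop (L₀ + 2)]
    with X k1 k2 k3 k4 k5
  have hX0 : 0 < X := by linarith
  have hl0 : 0 < Real.log X := Real.log_pos (by linarith)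
  have hl1 : 0 < Real.log (X - L₀) := Real.log_pos (by linarith)
  obtain ⟨W, hW⟩ : ∃ W : ℝ, W = √(8 * X / Real.log X) := ⟨_, rfl⟩
  have hW0 : 0 ≤ W := by rw [hW]; exact Real.sqrt_nonneg _
  rw [← hW] at k1
  have hpos : 0 < 1 - (1 - ε) ^ 2 := by nlinarith
  -- the square root at `X - L₀`
  have hWl : (1 - ε) * W ≤ √(8 * (X - L₀) / Real.log (X - L₀)) := by
    apply Real.le_sqrt_of_sq_le
    rw [mul_pow, hW, Real.sq_sqrt (by positivity), le_div_iff₀ hl1]
    have e1 : Real.log (X - L₀) ≤ Real.log X := Real.log_le_log (by linarith) (by linarith)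
    have e2 : (1 - ε) ^ 2 * X ≤ X - L₀ := by
      rw [div_le_iff₀ hpos] at k4
      linarith
    calc (1 - ε) ^ 2 * (8 * X / Real.log X) * Real.log (X - L₀)
        ≤ (1 - ε) ^ 2 * (8 * X / Real.log X) * Real.log X :=
          mul_le_mul_of_nonneg_left e1 (by positivity)
      _ = 8 * ((1 - ε) ^ 2 * X) := by field_simp
      _ ≤ 8 * (X - L₀) := by linarith
  have hNX : Real.exp ((2 - κ) * X - (2 - κ) * L₀ + (s - g / 2) * W) ≤ N X := by
    have e1 := h2 (X - L₀) (by linarith)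
    rw [sub_add_cancel] at e1
    refine le_trans (Real.exp_le_exp.2 ?_) e1
    have e2 : (1 - ε) * (s * ((1 - ε) * W)) ≤ (1 - ε) * (s * √(8 * (X - L₀) / Real.log (X - L₀))) := by
      apply mul_le_mul_of_nonneg_left _ (by linarith)
      exact mul_le_mul_of_nonneg_left hWl hs.le
    have e3 : (s - g / 2) * W ≤ (1 - ε) * (s * ((1 - ε) * W)) := by
      have e4 : (1 - ε) * (s * ((1 - ε) * W)) = (s - 2 * (ε * s) + ε ^ 2 * s) * W := by ring
      rw [e4]
      apply mul_le_mul_of_nonneg_right _ hW0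
      have : 0 ≤ ε ^ 2 * s := by positivity
      linarith
    linarith
  have hMX : M X ≤ Real.exp (Real.log 2 + ((2 - κ) * X + (s - g) * W)) := by
    refine (h1 X k2).trans ?_
    rw [← hW, Real.exp_add (Real.log 2), Real.exp_log (by norm_num)]
    have : 1 ≤ Real.exp ((2 - κ) * X + (s - g) * W) := by
      apply Real.one_le_exp
      have e1 : 0 ≤ (2 - κ) * X := mul_nonneg (by linarith) hX0.le
      have e2 : 0 ≤ (s - g) * W := mul_nonneg (by linarith) hW0
      linarith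
    linarith
  refine hMX.trans (le_trans ?_ (mul_le_mul_of_nonneg_left hNX (Real.exp_pos _).le))
  rw [← Real.exp_add]
  apply Real.exp_le_exp.2
  have e5 : √(X / Real.log X) ≤ W := by
    rw [hW]
    apply Real.sqrt_le_sqrt
    apply div_le_div_of_nonneg_right _ hl0.le
    linarith
  have e6 : g / 4 * √(X / Real.log X) ≤ g / 4 * W := mul_le_mul_of_nonneg_left e5 (by positivity)
  have e7 : Real.log 2 + (2 - κ) * L₀ ≤ g / 4 * W := by
    rw [div_le_iff₀ hg] at k1
    linarith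
  linarith

/-- `L / log L ≤ d L / log (d L)` for `d ≥ 1` and large `L` -/
theorem ratio_mono {d : ℝ} (hd : 1 ≤ d) : ∀ᶠ L : ℝ in atTop,
    √(L / Real.log L) ≤ √(d * L / Real.log (d * L)) := by
  filter_upwards [eventually_ge_atTop (Real.exp 1)] with L hL
  have h0 : 1 < Real.exp 1 := Real.one_lt_exp_iff.2 one_pos
  have hL1 : 1 < L := by linarith
  have hdL : L ≤ d * L := by nlinarith
  have h1 := Real.log_div_self_antitoneOn (a := L) (b := d * L) hL (hL.trans hdL) hdL
  simp only at h1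
  apply Real.sqrt_le_sqrt
  have h2 : 0 < Real.log (d * L) / (d * L) :=
    div_pos (Real.log_pos (by linarith)) (by linarith)
  have h3 := inv_anti₀ h2 h1
  rwa [inv_div, inv_div] at h3

/-- comparison of the main terms in `L` and in `d L` -/
theorem main_term {d : ℝ} (hd : 1 ≤ d) {b ε : ℝ} (hb : 0 ≤ b) (hε : 0 < ε) :
    ∀ᶠ L : ℝ in atTop, |√(2 * b * (d * L) / Real.log (d * L)) - √(2 * b * d * L / Real.log L)| ≤
      ε * √(L / Real.log L) := by
  obtain ⟨c, hc⟩ : ∃ c : ℝ, c = √(2 * b * d) := ⟨_, rfl⟩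
  have hc0 : 0 ≤ c := by rw [hc]; exact Real.sqrt_nonneg _
  obtain ⟨e, he⟩ : ∃ e : ℝ, e = ε / (c + 1) := ⟨_, rfl⟩
  have he0 : 0 < e := by rw [he]; positivity
  have hce : c * e ≤ ε := by
    rw [he, ← mul_div_assoc, div_le_iff₀ (by positivity)]
    nlinarith
  filter_upwards [Real.tendsto_log_atTop.eventually_ge_atTop (Real.log d / e),
    eventually_gt_atTop (1 : ℝ)] with L h1 h2
  have hL0 : 0 < L := by linarith
  have hd0 : 0 < d := by linarith
  have hl0 : 0 < Real.log L := Real.log_pos h2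
  have hld : 0 ≤ Real.log d := Real.log_nonneg hd
  have e1 : Real.log (d * L) = Real.log d + Real.log L := Real.log_mul hd0.ne' hL0.ne'
  have hl1 : 0 < Real.log (d * L) := by rw [e1]; linarith
  obtain ⟨U, hU⟩ : ∃ U : ℝ, U = √(L / Real.log L) := ⟨_, rfl⟩
  obtain ⟨U', hU'⟩ : ∃ U' : ℝ, U' = √(L / Real.log (d * L)) := ⟨_, rfl⟩
  have hU0 : 0 ≤ U := by rw [hU]; exact Real.sqrt_nonneg _
  have hbd : 0 ≤ 2 * b * d := by positivity
  have e2 : √(2 * b * (d * L) / Real.log (d * L)) = c * U' := by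
    rw [hc, hU', ← Real.sqrt_mul hbd]
    congr 1
    ring
  have e3 : √(2 * b * d * L / Real.log L) = c * U := by
    rw [hc, hU, ← Real.sqrt_mul hbd]
    congr 1
    ring
  have e4 : U' ≤ U := by
    rw [hU, hU']
    apply Real.sqrt_le_sqrt
    exact div_le_div_of_nonneg_left hL0.le hl0 (by linarith)
  have e5 : U ≤ (1 + e) * U' := by
    have e6 : Real.log (d * L) ≤ (1 + e) * Real.log L := by
      rw [div_le_iff₀ he0] at h1
      linarith
    rw [hU, hU']
    apply Real.sqrt_le_iff.2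
    refine ⟨by positivity, ?_⟩
    rw [mul_pow, Real.sq_sqrt (by positivity), ← mul_div_assoc, div_le_div_iff₀ hl0 hl1]
    have e7 : L * Real.log (d * L) ≤ L * ((1 + e) * Real.log L) :=
      mul_le_mul_of_nonneg_left e6 hL0.le
    have e8 : (1 + e) * (L * Real.log L) ≤ (1 + e) ^ 2 * (L * Real.log L) := by
      apply mul_le_mul_of_nonneg_right _ (by positivity)
      nlinarith
    linarith
  rw [e2, e3, ← mul_sub, abs_mul, abs_of_nonneg hc0, abs_sub_comm, abs_of_nonneg (by linarith), ← hU]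
  have e9 : U - U' ≤ e * U := by
    have : e * U' ≤ e * U := mul_le_mul_of_nonneg_left e4 he0.le
    linarith
  calc c * (U - U') ≤ c * (e * U) := mul_le_mul_of_nonneg_left e9 hc0
    _ = c * e * U := by ring
    _ ≤ ε * U := mul_le_mul_of_nonneg_right hce hU0

end Pool.Agent.U663.SD
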