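import Pool.Agent.U663.SD.Top

/-!
# Anatomy of the exceptions (helper663): properties which give a saving
-/

set_option autoImplicit false
set_option linter.unusedSectionVars false

namespace Pool.Agent.U663.SD

open NumberField IsDedekindDomain Finset Filter Topology Pool.Agent.H691R3 Pool.Agent.W223.AK
open Pool.Agent.N906.NT (Cx cst)
open Pool.Agent.N906.KG Pool.Agent.N575.QP

variable {K : Type} [Field K] [NumberField K] {q : ℕ}

theorem ratio_tendsto : Tendsto (fun X : ℝ => √(X / Real.log X)) atTop atTop := by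
  have h := YY_tendsto.const_mul_atTop (show (0 : ℝ) < 1 / √2 by positivity)
  refine h.congr fun X => ?_
  unfold YY
  rw [mul_div_assoc, Real.sqrt_mul (by norm_num), ← mul_assoc, one_div,
    inv_mul_cancel₀ (by positivity), one_mul]

theorem sqrt_two_le : √2 ≤ (2 : ℝ) := by
  rw [Real.sqrt_le_left (by norm_num)]
  norm_num

theorem savB (hG : S_GUPK K) {b ε C₀ : ℝ} (hb : 0 < b) (hb1 : b ≤ 1) (hε : 0 < ε) :
    Sav K b (fun X a => ε * √(X / Real.log X) <
      |(a.support.card : ℝ) - √(2 * b * X / Real.log X)| + C₀) := by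
  obtain ⟨e, he⟩ : ∃ e : ℝ, e = min 1 (ε / 16) := ⟨_, rfl⟩
  have he0 : 0 < e := by rw [he]; exact lt_min one_pos (by positivity)
  have he1 : e ≤ 1 := by rw [he]; exact min_le_left _ _
  have heε : e ≤ ε / 16 := by rw [he]; exact min_le_right _ _
  obtain ⟨Z₀, hZ₀, hB⟩ := tiltB (K := K) hG he0 he1
  obtain ⟨η, hη⟩ : ∃ η : ℝ, η = min (1 / 2) (ε / 32) := ⟨_, rfl⟩
  have hη0 : 0 < η := by rw [hη]; exact lt_min (by norm_num) (by positivity)
  have hη1 : η ≤ 1 / 2 := by rw [hη]; exact min_le_left _ _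
  have hηε : η ≤ ε / 32 := by rw [hη]; exact min_le_right _ _
  have hsb : 0 < √b := Real.sqrt_pos.2 hb
  obtain ⟨r, hr⟩ : ∃ r : ℝ, r = min (b / 2) (ε * √b / 16) := ⟨_, rfl⟩
  have hr0 : 0 < r := by rw [hr]; exact lt_min (by positivity) (by positivity)
  have hrb : r ≤ b / 2 := by rw [hr]; exact min_le_left _ _
  have hrε : r ≤ ε * √b / 16 := by rw [hr]; exact min_le_right _ _
  have ev := ((YY_upper (show 0 < b / 2 by positivity) hη0).and
    (YY_lower (show 0 < b / 2 by positivity) hη0 (by linarith))).and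
    ((ratio_tendsto.eventually_ge_atTop (4 * C₀ / ε)).and
      ((eventually_ge_atTop (2 * Z₀ / b)).and (eventually_ge_atTop (1 : ℝ))))
  obtain ⟨X₀, hX₀⟩ := eventually_atTop.1 ev
  refine ⟨e ^ 2 / 32, by positivity, by nlinarith, r, hr0, X₀, fun X hX y hy T F hT hF => ?_⟩
  obtain ⟨⟨hup, hlo⟩, h1, h2, h3⟩ := hX₀ X hX
  obtain ⟨hy1, hy2⟩ := abs_le.1 hy
  have hyb : b / 2 ≤ y := by linarith
  have hy2' : y ≤ 2 := by linarith
  have hy0 : 0 < y := by linarith
  obtain ⟨U, hU⟩ : ∃ U : ℝ, U = √(X / Real.log X) := ⟨_, rfl⟩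
  have hU0 : 0 ≤ U := by rw [hU]; exact Real.sqrt_nonneg _
  rw [← hU] at h1
  have hV : √(2 * X / Real.log X) = √2 * U := by
    rw [hU, mul_div_assoc, Real.sqrt_mul (by norm_num)]
  have hbV : √(2 * b * X / Real.log X) = √b * (√2 * U) := by
    rw [hU, show 2 * b * X / Real.log X = b * (2 * (X / Real.log X)) by ring,
      Real.sqrt_mul hb.le, Real.sqrt_mul (by norm_num)]
  have k1 := hup y hyb
  have k2 := hlo y hyb hy2'
  rw [hV] at k1 k2
  obtain ⟨V, hV'⟩ : ∃ V : ℝ, V = √2 * U := ⟨_, rfl⟩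
  rw [← hV'] at k1 k2 hbV
  have hV0 : 0 ≤ V := by rw [hV']; positivity
  have hVU : V ≤ 2 * U := by rw [hV']; exact mul_le_mul_of_nonneg_right sqrt_two_le hU0
  have hsy : √y ≤ 2 := by
    apply Real.sqrt_le_iff.2
    exact ⟨by norm_num, by linarith⟩
  have hsy0 := Real.sqrt_nonneg y
  have hdiff : |√y - √b| ≤ r / √b := by
    rw [le_div_iff₀ hsb]
    have e1 : |√y - √b| * (√y + √b) = |y - b| := by
      rw [← abs_of_nonneg (show 0 ≤ √y + √b by positivity), ← abs_mul]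
      congr 1
      have := Real.sq_sqrt hy0.le
      have := Real.sq_sqrt hb.le
      nlinarith
    have e2 : |√y - √b| * √b ≤ |√y - √b| * (√y + √b) :=
      mul_le_mul_of_nonneg_left (by linarith) (abs_nonneg _)
    linarith
  have hrb' : r / √b ≤ ε / 16 := by
    rw [div_le_iff₀ hsb]
    linarith
  obtain ⟨d1, d2⟩ := abs_le.1 hdiff
  have hYb : |YY (y * (X + 1)) - √b * V| ≤ ε / 4 * U := by
    have e3 : √y * V ≤ 2 * V := mul_le_mul_of_nonneg_right hsy hV0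
    have e4 : 0 ≤ √y * V := by positivity
    have e5 : η * (√y * V) ≤ ε / 32 * (2 * V) := mul_le_mul hηε e3 e4 (by positivity)
    have e6 : (√y - √b) * V ≤ ε / 16 * V := mul_le_mul_of_nonneg_right (by linarith) hV0
    have e7 : -(ε / 16) * V ≤ (√y - √b) * V := mul_le_mul_of_nonneg_right (by linarith) hV0
    have e8 : ε / 8 * V ≤ ε / 4 * U := by nlinarith
    rw [abs_le]
    constructor <;> nlinarith
  have hY8 : YY (y * (X + 1)) ≤ 8 * U := by
    have e3 : √y * V ≤ 2 * (2 * U) := mul_le_mul hsy hVU hV0 (by norm_num)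
    have e4 : 0 ≤ √y * V := by positivity
    nlinarith
  refine hB _ T F ?_ hT fun a ha => ?_
  · rw [div_le_iff₀ hb] at h2
    nlinarith
  · obtain ⟨g1, g2, g3⟩ := hF a ha
    refine ⟨g1, g2, ?_⟩
    rw [← hU, hbV] at g3
    have e1 : C₀ ≤ ε / 4 * U := by
      rw [div_le_iff₀ hε] at h1
      linarith
    have e2 : |(a.support.card : ℝ) - √b * V| ≤
        |(a.support.card : ℝ) - YY (y * (X + 1))| + |YY (y * (X + 1)) - √b * V| := by
      have := abs_add_le ((a.support.card : ℝ) - YY (y * (X + 1))) (YY (y * (X + 1)) - √b * V)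
      rwa [sub_add_sub_cancel] at this
    have e3 : e * YY (y * (X + 1)) ≤ ε / 16 * (8 * U) :=
      mul_le_mul heε hY8 (YY_nonneg _) (by positivity)
    linarith

theorem savC (hG : S_GUPK K) {b ε C₀ : ℝ} (hb : 0 < b) (hb1 : b ≤ 1) (hε : 0 < ε) :
    Sav K b (fun X a => ε * X < rl a + C₀) := by
  obtain ⟨e, he⟩ : ∃ e : ℝ, e = min 1 (ε / 8) := ⟨_, rfl⟩
  have he0 : 0 < e := by rw [he]; exact lt_min one_pos (by positivity)
  have he1 : e ≤ 1 := by rw [he]; exact min_le_left _ _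
  have heε : e ≤ ε / 8 := by rw [he]; exact min_le_right _ _
  obtain ⟨Z₀, hZ₀, hC⟩ := tiltC (K := K) hG he0
  refine ⟨e / 4, by positivity, by linarith, b / 2, by positivity,
    max (max (2 * Z₀ / b) 1) (2 * C₀ / ε), fun X hX y hy T F hT hF => ?_⟩
  have h1 : 2 * Z₀ / b ≤ X := (le_max_left _ _).trans ((le_max_left _ _).trans hX)
  have h2 : 1 ≤ X := (le_max_right _ _).trans ((le_max_left _ _).trans hX)
  have h3 : 2 * C₀ / ε ≤ X := (le_max_right _ _).trans hX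
  obtain ⟨hy1, hy2⟩ := abs_le.1 hy
  refine hC _ T F ?_ hT fun a ha => ?_
  · rw [div_le_iff₀ hb] at h1
    nlinarith
  · obtain ⟨g1, g2, g3⟩ := hF a ha
    refine ⟨g1, g2, ?_⟩
    rw [div_le_iff₀ hε] at h3
    have e1 : y * (X + 1) ≤ 4 * X := by nlinarith
    have e0 : 0 ≤ y * (X + 1) := mul_nonneg (by linarith) (by linarith)
    have e2 : e * (y * (X + 1)) ≤ ε / 8 * (4 * X) := mul_le_mul heε e1 e0 (by positivity)
    linarith

theorem Sav.or {b : ℝ} (hb : 0 < b) (hb1 : b ≤ 1) {Q₁ Q₂ : ℝ → Idl K → Prop} (h₁ : Sav K b Q₁)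
    (h₂ : Sav K b Q₂) : Sav K b (fun X a => Q₁ X a ∨ Q₂ X a) := by
  classical
  obtain ⟨η₁, hη₁, hη₁', r₁, hr₁, X₁, H₁⟩ := h₁
  obtain ⟨η₂, hη₂, hη₂', r₂, hr₂, X₂, H₂⟩ := h₂
  obtain ⟨η, hη⟩ : ∃ η : ℝ, η = min η₁ η₂ := ⟨_, rfl⟩
  have hη0 : 0 < η := by rw [hη]; exact lt_min hη₁ hη₂
  have hηa : η ≤ η₁ := by rw [hη]; exact min_le_left _ _
  have hηb : η ≤ η₂ := by rw [hη]; exact min_le_right _ _
  have hsb : 0 < √(b / 2) := Real.sqrt_pos.2 (by positivity)
  have ev := (YY_lower (show 0 < b / 2 by positivity) (show (0 : ℝ) < 1 / 2 by norm_num)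
    (by norm_num)).and ((YY_tendsto.eventually_ge_atTop (4 * Real.log 2 / (η * √(b / 2)))).and
      ((eventually_ge_atTop X₁).and (eventually_ge_atTop X₂)))
  obtain ⟨X₀, hX₀⟩ := eventually_atTop.1 ev
  refine ⟨η / 2, by positivity, by linarith, min (min r₁ r₂) (b / 2),
    lt_min (lt_min hr₁ hr₂) (by positivity), X₀, fun X hX y hy T F hT hF => ?_⟩
  obtain ⟨hlo, h1, h2, h3⟩ := hX₀ X hX
  have hy1 : |y - b| ≤ r₁ := hy.trans ((min_le_left _ _).trans (min_le_left _ _))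
  have hy2 : |y - b| ≤ r₂ := hy.trans ((min_le_left _ _).trans (min_le_right _ _))
  obtain ⟨hy3, hy4⟩ := abs_le.1 (hy.trans (min_le_right _ _))
  have hY : Real.log 2 ≤ η / 2 * YY (y * (X + 1)) := by
    have k1 := hlo y (by linarith) (by linarith)
    have k2 : √(b / 2) ≤ √y := Real.sqrt_le_sqrt (by linarith)
    have k3 : √(2 * X / Real.log X) = YY X := rfl
    rw [k3] at k1
    have k4 : √(b / 2) * YY X ≤ √y * YY X := mul_le_mul_of_nonneg_right k2 (YY_nonneg _)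
    rw [div_le_iff₀ (by positivity)] at h1
    have k5 : Real.log 2 ≤ η * (√(b / 2) * YY X) / 4 := by linarith
    have k6 : η * (√(b / 2) * YY X) ≤ η * (√y * YY X) := mul_le_mul_of_nonneg_left k4 hη0.le
    have k7 : η * ((1 - 1 / 2) * (√y * YY X)) ≤ η * YY (y * (X + 1)) :=
      mul_le_mul_of_nonneg_left k1 hη0.le
    linarith
  have hY0 := YY_nonneg (y * (X + 1))
  have s1 := H₁ X h2 y hy1 T (F.filter fun a => Q₁ X a) hT fun a ha =>
    ⟨(hF a (mem_filter.1 ha).1).1, (hF a (mem_filter.1 ha).1).2.1, (mem_filter.1 ha).2⟩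
  have s2 := H₂ X h3 y hy2 T (F.filter fun a => ¬ Q₁ X a) hT fun a ha =>
    ⟨(hF a (mem_filter.1 ha).1).1, (hF a (mem_filter.1 ha).1).2.1,
      (hF a (mem_filter.1 ha).1).2.2.resolve_left (mem_filter.1 ha).2⟩
  rw [← Finset.sum_filter_add_sum_filter_not F (fun a => Q₁ X a)]
  have t1 : Real.exp (-T + (2 - η₁) * YY (y * (X + 1))) ≤
      Real.exp (-T + (2 - η) * YY (y * (X + 1))) := by
    apply Real.exp_le_exp.2
    have : (2 - η₁) * YY (y * (X + 1)) ≤ (2 - η) * YY (y * (X + 1)) :=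
      mul_le_mul_of_nonneg_right (by linarith) hY0
    linarith
  have t2 : Real.exp (-T + (2 - η₂) * YY (y * (X + 1))) ≤
      Real.exp (-T + (2 - η) * YY (y * (X + 1))) := by
    apply Real.exp_le_exp.2
    have : (2 - η₂) * YY (y * (X + 1)) ≤ (2 - η) * YY (y * (X + 1)) :=
      mul_le_mul_of_nonneg_right (by linarith) hY0
    linarith
  calc _ ≤ Real.exp (-T + (2 - η) * YY (y * (X + 1))) +
        Real.exp (-T + (2 - η) * YY (y * (X + 1))) := add_le_add (s1.trans t1) (s2.trans t2)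
    _ = Real.exp (Real.log 2 + (-T + (2 - η) * YY (y * (X + 1)))) := by
        rw [Real.exp_add (Real.log 2), Real.exp_log (by norm_num)]
        ring
    _ ≤ _ := by
        apply Real.exp_le_exp.2
        linarith

/-- the point `x` with the ideals `P` is abnormal -/
def Abn (b ε C₀ X h : ℝ) (P : Fin q → Idl K) : Prop :=
  ∃ l, ε * h < |rl (P l) - (1 - b) * h| + C₀ ∨ ε * h < h - len (P l) + C₀ ∨
    (X / 2 < h → (ε * √(X / Real.log X) <
      |((sqf (P l)).support.card : ℝ) - √(2 * b * X / Real.log X)| + C₀ ∨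
        ε * X < rl (sqf (P l)) + C₀))

/-- the abnormal exceptions are few -/
theorem few (hq : 1 ≤ q) {κ₁ : ℝ} (hκ₁ : κ₁ ≤ 1) (h1 : S_BASQ K) (h2 : S_CELLQ K)
    (hG : S_GUPK K) (h4 : S_BIGQ K q κ₁) {α : Fin q → K × K} {S : Finset (Pr K)} (hα : Al α)
    (hS : Gd S α) {κ ε C₀ : ℝ} (hκ0 : 0 < κ) (hκl : κ < κ₁) (hε : 0 < ε) (hC₀ : 0 ≤ C₀) :
    ∃ g : ℝ, 0 < g ∧ ∃ X₀ : ℝ, 1 < X₀ ∧ ∀ (X : ℝ) (F : Finset K), X₀ ≤ X →
      (∀ x ∈ F, Of α x ∧ hr (aff x) ≤ X ∧ ∃ P, IsP S α x P ∧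
        tr P ≤ ((q : ℝ) - κ) * hr (aff x) + C₀ ∧ Abn (κ / q) ε C₀ X (hr (aff x)) P) →
      (F.card : ℝ) ≤ Real.exp ((2 - κ) * X + (q * √(κ / q) - g) * √(8 * X / Real.log X)) := by
  classical
  have hq0 : (0 : ℝ) < q := by exact_mod_cast hq
  have hq1 : (1 : ℝ) ≤ q := by exact_mod_cast hq
  have hb0 : 0 < κ / q := by positivity
  have hb1 : κ / q ≤ 1 := by
    rw [div_le_one hq0]
    linarith
  obtain ⟨g, hg, X₀, hX₀, hm⟩ := main hq hκ₁ h1 h2 hG h4 hα hS hκ0 hκl hε hC₀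
    (Sav.or hb0 hb1 (savB hG hb0 hb1 hε (C₀ := C₀)) (savC hG hb0 hb1 hε (C₀ := C₀)))
  obtain ⟨X₁, hX₁⟩ := eventually_atTop.1
    (poly (A := (q : ℝ)) (η := g / 2) (by positivity) hq0 0)
  refine ⟨g / 2, by positivity, max X₀ X₁, lt_max_of_lt_left hX₀, fun X F hX hF => ?_⟩
  have k1 := hX₁ X ((le_max_right _ _).trans hX)
  rw [pow_zero, mul_one] at k1
  have hP' : ∀ x : K, ∃ (P : Fin q → Idl K) (l : Fin q), x ∈ F → IsP S α x P ∧
        tr P ≤ ((q : ℝ) - κ) * hr (aff x) + C₀ ∧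
        ((∃ l, ε * hr (aff x) < |rl (P l) - (1 - κ / q) * hr (aff x)| + C₀ ∨
          ε * hr (aff x) < hr (aff x) - len (P l) + C₀) ∨
            (X / 2 < hr (aff x) → (ε * √(X / Real.log X) <
      |((sqf (P l)).support.card : ℝ) - √(2 * (κ / q) * X / Real.log X)| + C₀ ∨
        ε * X < rl (sqf (P l)) + C₀))) := by
    intro x
    by_cases hx : x ∈ F
    · obtain ⟨P, hP1, hP2, l, hP3⟩ := (hF x hx).2.2
      refine ⟨P, l, fun _ => ⟨hP1, hP2, ?_⟩⟩
      rcases hP3 with h | h | h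
      · exact Or.inl ⟨l, Or.inl h⟩
      · exact Or.inl ⟨l, Or.inr h⟩
      · exact Or.inr h
    · exact ⟨0, ⟨0, hq⟩, fun h => absurd h hx⟩
  choose P l hP using hP'
  have hsum : (F.card : ℝ) ≤ q *
      Real.exp ((2 - κ) * X + (q * √(κ / q) - g) * √(8 * X / Real.log X)) := by
    rw [card_eq_sum_card_fiberwise (f := l) (t := univ) (fun x _ => mem_coe.2 (mem_univ _))]
    push_cast
    have h5 : ∀ l₀ ∈ (univ : Finset (Fin q)), ((#{x ∈ F | l x = l₀} : ℕ) : ℝ) ≤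
        Real.exp ((2 - κ) * X + (q * √(κ / q) - g) * √(8 * X / Real.log X)) := by
      intro l₀ _
      refine hm X _ l₀ ((le_max_left _ _).trans hX) ?_
      intro x hx
      obtain ⟨hx1, hx2⟩ := mem_filter.1 hx
      obtain ⟨g1, g2, g3⟩ := hP x hx1
      rw [hx2] at g3
      exact ⟨(hF x hx1).1, (hF x hx1).2.1, P x, g1, g2, g3⟩
    refine (Finset.sum_le_sum h5).trans ?_
    rw [Finset.sum_const, Finset.card_univ, Fintype.card_fin, nsmul_eq_mul]
  calc (F.card : ℝ) ≤ q *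
      Real.exp ((2 - κ) * X + (q * √(κ / q) - g) * √(8 * X / Real.log X)) := hsum
    _ ≤ Real.exp (g / 2 * √(8 * X / Real.log X)) *
      Real.exp ((2 - κ) * X + (q * √(κ / q) - g) * √(8 * X / Real.log X)) :=
        mul_le_mul_of_nonneg_right k1 (Real.exp_pos _).le
    _ = _ := by
        rw [← Real.exp_add]
        congr 1
        ring

end Pool.Agent.U663.SD
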