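import Pool.Agent.U663.SD.Main

/-!
# Anatomy of the exceptions (helper663): all classes together
-/

set_option autoImplicit false
set_option linter.unusedSectionVars false

namespace Pool.Agent.U663.SD

open NumberField IsDedekindDomain Finset Filter Topology Pool.Agent.H691R3 Pool.Agent.W223.AK
open Pool.Agent.N906.NT (Cx cst)
open Pool.Agent.N906.KG Pool.Agent.N575.QP

variable {K : Type} [Field K] [NumberField K] {q : ℕ}

/-- the exceptions for which the defect is not equally distributed, or the squareful part of the ideal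
`l₀` has the property `Q`, are few -/
theorem main (hq : 1 ≤ q) {κ₁ : ℝ} (hκ₁ : κ₁ ≤ 1) (h1 : S_BASQ K) (h2 : S_CELLQ K)
    (hG : S_GUPK K) (h4 : S_BIGQ K q κ₁) {α : Fin q → K × K} {S : Finset (Pr K)} (hα : Al α)
    (hS : Gd S α) {κ ε C₀ : ℝ} (hκ0 : 0 < κ) (hκl : κ < κ₁) (hε : 0 < ε) (hC₀ : 0 ≤ C₀)
    {Q : ℝ → Idl K → Prop} (hQ : Sav K (κ / q) Q) :
    ∃ g : ℝ, 0 < g ∧ ∃ X₀ : ℝ, 1 < X₀ ∧ ∀ (X : ℝ) (F : Finset K) (l₀ : Fin q), X₀ ≤ X →
      (∀ x ∈ F, Of α x ∧ hr (aff x) ≤ X ∧ ∃ P, IsP S α x P ∧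
        tr P ≤ ((q : ℝ) - κ) * hr (aff x) + C₀ ∧
        ((∃ l, ε * hr (aff x) < |rl (P l) - (1 - κ / q) * hr (aff x)| + C₀ ∨
          ε * hr (aff x) < hr (aff x) - len (P l) + C₀) ∨
            (X / 2 < hr (aff x) → Q X (sqf (P l₀))))) →
      (F.card : ℝ) ≤ Real.exp ((2 - κ) * X + (q * √(κ / q) - g) * √(8 * X / Real.log X)) := by
  classical
  have hq0 : (0 : ℝ) < q := by exact_mod_cast hq
  have hq1 : (1 : ℝ) ≤ q := by exact_mod_cast hq
  obtain ⟨b, hb⟩ : ∃ b : ℝ, b = κ / q := ⟨_, rfl⟩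
  have hb0 : 0 < b := by rw [hb]; positivity
  have hqb : q * b = κ := by rw [hb]; field_simp
  have hb1 : b ≤ 1 := by
    have : b ≤ q * b := by nlinarith
    linarith
  obtain ⟨a, ha⟩ : ∃ a : ℝ, a = √b := ⟨_, rfl⟩
  have ha0 : 0 < a := by rw [ha]; exact Real.sqrt_pos.2 hb0
  have ha1 : a ≤ 1 := by rw [ha]; exact Real.sqrt_le_one.2 hb1
  have hab : a ^ 2 = b := by rw [ha]; exact Real.sq_sqrt hb0.le
  rw [← hb] at hQ ⊢
  rw [← ha]
  obtain ⟨η, hη, hη1, r, hr0, X₅, hQ'⟩ := hQ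
  -- the parameters
  obtain ⟨e, he⟩ : ∃ e : ℝ, e = min (r / 2) (min (b / 2) (ε / (16 * q))) := ⟨_, rfl⟩
  have he0 : 0 < e := by
    rw [he]
    exact lt_min (by positivity) (lt_min (by positivity) (by positivity))
  have her : e ≤ r / 2 := by rw [he]; exact min_le_left _ _
  have heb : e ≤ b / 2 := by rw [he]; exact (min_le_right _ _).trans (min_le_left _ _)
  have heε : q * e ≤ ε / 16 := by
    have : e ≤ ε / (16 * q) := by rw [he]; exact (min_le_right _ _).trans (min_le_right _ _)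
    calc (q : ℝ) * e ≤ q * (ε / (16 * q)) := mul_le_mul_of_nonneg_left this hq0.le
      _ = ε / 16 := by field_simp
  obtain ⟨g, hg⟩ : ∃ g : ℝ, g = min (e ^ 2 / 16) (η * a / 8) := ⟨_, rfl⟩
  have hg0 : 0 < g := by
    rw [hg]
    exact lt_min (by positivity) (by positivity)
  have hge : g ≤ e ^ 2 / 16 := by rw [hg]; exact min_le_left _ _
  have hga : g ≤ η * a / 8 := by rw [hg]; exact min_le_right _ _
  obtain ⟨δ, hδ⟩ : ∃ δ : ℝ, δ = min (min (e ^ 2 / 16) ((κ₁ - κ) / 2)) (min (a * g / 16) (ε / 32)) :=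
    ⟨_, rfl⟩
  have hδ0 : 0 < δ := by
    rw [hδ]
    exact lt_min (lt_min (by positivity) (by linarith)) (lt_min (by positivity) (by positivity))
  have hδe : δ ≤ e ^ 2 / 16 := by rw [hδ]; exact (min_le_left _ _).trans (min_le_left _ _)
  have hδκ : κ + 2 * δ ≤ κ₁ := by
    have : δ ≤ (κ₁ - κ) / 2 := by rw [hδ]; exact (min_le_left _ _).trans (min_le_right _ _)
    linarith
  have hδg : δ / a ≤ g / 16 := by
    have : δ ≤ a * g / 16 := by rw [hδ]; exact (min_le_right _ _).trans (min_le_left _ _)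
    rw [div_le_iff₀ ha0]
    linarith
  have hδε : δ ≤ ε / 32 := by rw [hδ]; exact (min_le_right _ _).trans (min_le_right _ _)
  obtain ⟨w, hw⟩ : ∃ w : ℝ, w = min ((g / (16 * q)) ^ 2) (min (r / 2) 1) := ⟨_, rfl⟩
  have hw0 : 0 < w := by
    rw [hw]
    exact lt_min (by positivity) (lt_min (by positivity) one_pos)
  have hwg : q * √w ≤ g / 16 := by
    have h5 : √w ≤ g / (16 * q) := by
      apply Real.sqrt_le_iff.2
      exact ⟨by positivity, by rw [hw]; exact min_le_left _ _⟩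
    calc (q : ℝ) * √w ≤ q * (g / (16 * q)) := mul_le_mul_of_nonneg_left h5 hq0.le
      _ = g / 16 := by field_simp
  have hw1 : w ≤ 1 := by rw [hw]; exact (min_le_right _ _).trans (min_le_right _ _)
  have hwr : w ≤ r / 2 := by rw [hw]; exact (min_le_right _ _).trans (min_le_left _ _)
  obtain ⟨η', hη'⟩ : ∃ η' : ℝ, η' = min (g / (32 * q)) 1 := ⟨_, rfl⟩
  have hη'0 : 0 < η' := by rw [hη']; exact lt_min (by positivity) one_pos
  have hη'1 : η' ≤ 1 := by rw [hη']; exact min_le_right _ _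
  have hη'g : 2 * q * η' ≤ g / 16 := by
    have : η' ≤ g / (32 * q) := by rw [hη']; exact min_le_left _ _
    calc 2 * (q : ℝ) * η' ≤ 2 * q * (g / (32 * q)) :=
          mul_le_mul_of_nonneg_left this (by positivity)
      _ = g / 16 := by field_simp; norm_num
  -- the constants of the library
  obtain ⟨C, hC, hcodes⟩ := codes h1 hq hα hS
  obtain ⟨A, hA, hcell⟩ := h2 q α S hα hS
  obtain ⟨Z₀, hZ₀, hrank⟩ := tiltA (K := K) hG (ε := η' / 4) (by positivity)
  obtain ⟨D₁, hD₁, hbig₁⟩ := h4 α S κ (1 / 2) C₀ hα hS hκ0.le hκl.le (by norm_num)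
  obtain ⟨D₂, hD₂, hbig₂⟩ := h4 α S (κ + δ) δ 0 hα hS (by linarith) (by linarith) hδ0
  have hcop : ∀ x, Of α x → ∀ P, IsP S α x P → ∀ l l', l ≠ l' → Cop (P l) (P l') := by
    obtain ⟨-, h5⟩ := h1 q α hq hα
    obtain ⟨C', -, h6⟩ := h5 S hS
    intro x hx P hP
    exact ((h6 x hx).2.1 P hP).1
  obtain ⟨B, hB⟩ : ∃ B : ℝ, B = A * (1 + Real.exp (2 * C)) * Real.exp (q * (1 + C + q * C)) *
    Real.exp (2 + 2 * (2 * C₀ + q)) := ⟨_, rfl⟩
  have hB0 : 0 < B := by rw [hB]; positivity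
  obtain ⟨s, hs⟩ : ∃ s : ℕ, s = (Spl S).card := ⟨_, rfl⟩
  obtain ⟨E, hE⟩ : ∃ E : ℝ, E = D₁ + D₂ + C * B + C + 1 := ⟨_, rfl⟩
  have hCB : 0 < C * B := by positivity
  have hE0 : 0 < E := by rw [hE]; positivity
  have ev := (poly (A := E) (η := g / 4) (by positivity) hE0 (q + (1 + s))).and
    (((YY_upper hw0 (show (0 : ℝ) < η' / 4 by positivity)).and
      (YY_lower hw0 (show (0 : ℝ) < 1 / 2 by norm_num) (by norm_num))).and
    ((eventually_ge_atTop (1 : ℝ)).and ((eventually_ge_atTop (2 * q * (q * C) / δ)).and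
      ((eventually_ge_atTop ((C₀ + q * C + 2) * 16 / ε)).and
        ((eventually_ge_atTop ((C₀ + q * C + C + 2) * 16 / ε)).and
          ((eventually_ge_atTop (Z₀ / w)).and (eventually_ge_atTop X₅)))))))
  obtain ⟨X₀, hX₀⟩ := eventually_atTop.1 ev
  refine ⟨g / 2, by positivity, max X₀ 2, lt_max_of_lt_right (by norm_num), fun X F l₀ hX hF => ?_⟩
  obtain ⟨hpoly, ⟨hup, hlo⟩, hX1, hX2, hX3, hX4, hX5, hX6⟩ := hX₀ X ((le_max_left _ _).trans hX)
  have hX0 : 0 < X := by linarith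
  obtain ⟨W, hW⟩ : ∃ W : ℝ, W = √(8 * X / Real.log X) := ⟨_, rfl⟩
  have hW0 : 0 ≤ W := by rw [hW]; exact Real.sqrt_nonneg _
  rw [← hW] at hpoly ⊢
  -- the choice of the ideals
  have hP' : ∀ x : K, ∃ P : Fin q → Idl K, x ∈ F → IsP S α x P ∧
        tr P ≤ ((q : ℝ) - κ) * hr (aff x) + C₀ ∧
        ((∃ l, ε * hr (aff x) < |rl (P l) - (1 - b) * hr (aff x)| + C₀ ∨
          ε * hr (aff x) < hr (aff x) - len (P l) + C₀) ∨
            (X / 2 < hr (aff x) → Q X (sqf (P l₀)))) := by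
    intro x
    by_cases hx : x ∈ F
    · obtain ⟨P, hP⟩ := (hF x hx).2.2
      exact ⟨P, fun _ => hP⟩
    · exact ⟨0, fun h => absurd h hx⟩
  choose P hP using hP'
  obtain ⟨V, hV⟩ : ∃ V : ℝ, V = Real.exp ((2 - κ) * X + (q * a - 3 / 4 * g) * W) := ⟨_, rfl⟩
  have hV0 : 0 < V := by rw [hV]; positivity
  have hgq : 3 / 4 * g ≤ q * a := by
    have h5 : η * a ≤ 1 * a := mul_le_mul_of_nonneg_right hη1 ha0.le
    have h6 : 1 * a ≤ q * a := mul_le_mul_of_nonneg_right hq1 ha0.le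
    linarith
  have hV1 : Real.exp ((2 - κ) * X) ≤ V := by
    rw [hV]
    apply Real.exp_le_exp.2
    have : 0 ≤ (q * a - 3 / 4 * g) * W := mul_nonneg (by linarith) hW0
    linarith
  -- small height
  have hs1 : ((#{x ∈ F | hr (aff x) ≤ X / 2} : ℕ) : ℝ) ≤ D₁ * V := by
    refine (hbig₁ (X / 2) _ (by positivity) ?_).trans
      (mul_le_mul_of_nonneg_left (le_trans ?_ hV1) hD₁.le)
    · intro x hx
      rw [mem_filter] at hx
      exact ⟨(hF x hx.1).1, hx.2, P x, (hP x hx.1).1, (hP x hx.1).2.1⟩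
    · apply Real.exp_le_exp.2
      nlinarith
  -- small radical
  have hs2 : ((#{x ∈ F | tr (P x) ≤ ((q : ℝ) - (κ + δ)) * hr (aff x)} : ℕ) : ℝ) ≤ D₂ * V := by
    refine (hbig₂ X _ hX0.le ?_).trans
      (mul_le_mul_of_nonneg_left (le_trans (le_of_eq ?_) hV1) hD₂.le)
    · intro x hx
      rw [mem_filter] at hx
      refine ⟨(hF x hx.1).1, (hF x hx.1).2.1, P x, (hP x hx.1).1, ?_⟩
      rw [add_zero]
      exact hx.2
    · congr 1
      ring
  -- the other points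
  obtain ⟨Fc, hFc⟩ : ∃ Fc : Finset K, Fc = {x ∈ F | X / 2 < hr (aff x) ∧
      ((q : ℝ) - (κ + δ)) * hr (aff x) < tr (P x)} := ⟨_, rfl⟩
  have hcov : F.card ≤ #{x ∈ F | hr (aff x) ≤ X / 2} +
      #{x ∈ F | tr (P x) ≤ ((q : ℝ) - (κ + δ)) * hr (aff x)} + Fc.card := by
    have h5 : F ⊆ ({x ∈ F | hr (aff x) ≤ X / 2} ∪
        {x ∈ F | tr (P x) ≤ ((q : ℝ) - (κ + δ)) * hr (aff x)}) ∪ Fc := by
      intro x hx
      rw [mem_union, mem_union, hFc, mem_filter, mem_filter, mem_filter]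
      rcases le_or_gt (hr (aff x)) (X / 2) with h | h
      · exact Or.inl (Or.inl ⟨hx, h⟩)
      · rcases le_or_gt (tr (P x)) (((q : ℝ) - (κ + δ)) * hr (aff x)) with h' | h'
        · exact Or.inl (Or.inr ⟨hx, h'⟩)
        · exact Or.inr ⟨hx, h, h'⟩
    refine (card_le_card h5).trans ((card_union_le _ _).trans ?_)
    exact Nat.add_le_add_right (card_union_le _ _) _
  obtain ⟨T, hT1, hT2, hT3⟩ := hcodes X hX0.le
  rw [← hs] at hT1
  have hf : ∀ x : K, ∃ c : Option (ℕ × (Pl K → Fin q) × (Pl K → ℕ)), Of α x →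
      hr (aff x) ≤ X → ∃ c₁ ∈ T, c = some c₁ ∧ Ic α S C c₁ x := by
    intro x
    by_cases hx : Of α x ∧ hr (aff x) ≤ X
    · obtain ⟨c, hc, hc'⟩ := hT3 x hx.1 hx.2
      exact ⟨some c, fun _ _ => ⟨c, hc, rfl, hc'⟩⟩
    · exact ⟨none, fun h h' => absurd ⟨h, h'⟩ hx⟩
  choose f hf using hf
  obtain ⟨n, hn⟩ : ∃ n : K → Fin q → ℕ,
      n = fun x l => ⌊X * max 0 (1 - rl (P x l) / hr (aff x))⌋₊ := ⟨_, rfl⟩
  obtain ⟨N, hN⟩ : ∃ N : Finset (Fin q → ℕ), N = Fintype.piFinset (fun _ : Fin q => range (⌊X⌋₊ + 1)) :=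
    ⟨_, rfl⟩
  have hNc : (N.card : ℝ) ≤ (X + 1) ^ q := by
    rw [hN, Fintype.card_piFinset, Finset.prod_const, card_range, Finset.card_univ,
      Fintype.card_fin]
    push_cast
    exact pow_le_pow_left₀ (by positivity) (by linarith [Nat.floor_le hX0.le]) _
  have hcard : (Fc.card : ℝ) ≤ ((N.card : ℝ) * T.card) * (B * V) := by
    have hUc : ((T.image some).card : ℝ) ≤ T.card := by exact_mod_cast card_image_le
    rw [card_eq_sum_card_fiberwise (f := fun x => (n x, f x)) (t := N ×ˢ T.image some) (by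
      intro x hx
      have hx' : x ∈ Fc := hx
      rw [hFc, mem_filter] at hx'
      obtain ⟨hxF, hx1, -⟩ := hx'
      obtain ⟨g1, g2, -⟩ := hF x hxF
      obtain ⟨c, hc, hc1, -⟩ := hf x g1 g2
      show (n x, f x) ∈ N ×ˢ T.image some
      rw [mem_product]
      refine ⟨?_, ?_⟩
      · rw [hN, Fintype.mem_piFinset]
        intro l
        rw [mem_range, Nat.lt_succ_iff, hn]
        apply Nat.floor_le_floor
        have g3 : max 0 (1 - rl (P x l) / hr (aff x)) ≤ 1 := by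
          have g4 : 0 ≤ rl (P x l) / hr (aff x) :=
            div_nonneg (rl0 _) (hr_aff_nonneg x)
          exact max_le zero_le_one (by linarith)
        calc X * max 0 (1 - rl (P x l) / hr (aff x)) ≤ X * 1 :=
              mul_le_mul_of_nonneg_left g3 hX0.le
          _ = X := mul_one X
      · show f x ∈ T.image some
        rw [hc1]
        exact mem_image_of_mem _ hc)]
    push_cast
    have hfib : ∀ u ∈ N ×ˢ T.image some, ((#{x ∈ Fc | (n x, f x) = u} : ℕ) : ℝ) ≤ B * V := by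
      rintro ⟨n₀, u⟩ hu
      obtain ⟨-, hu2⟩ := mem_product.1 hu
      obtain ⟨c, hc, rfl⟩ := mem_image.1 hu2
      have b1 := class_bound (K := K) (q := q) hq hκ₁ hA.le hC hC₀ hcell hcop hb0 ha0 ha1 hab hqb hε
        he0 her heb heε hδ0 hδe hδκ hδg hδε hw0 hwg hw1 hwr hη'0 hη'1 hη'g hη hη1 hg0 hge hga l₀
        (Q := Q) hX1 hX2 hX3 hX4 hup hlo
        (fun Z T' F' hZ hT' hF' => hrank Z T' F' (by
          rw [div_le_iff₀ hw0] at hX5
          nlinarith) hT' hF')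
        (fun y hy T' F' hT' hF' => hQ' X hX6 y hy T' F' hT' hF')
        (hT2 c hc) P n₀ (G := {x ∈ Fc | (n x, f x) = (n₀, some c)}) (by
          intro x hx
          rw [mem_filter, hFc, mem_filter] at hx
          obtain ⟨⟨hxF, hx1, hx2⟩, hx3⟩ := hx
          obtain ⟨g1, g2, -⟩ := hF x hxF
          obtain ⟨k1, k2, k3⟩ := hP x hxF
          obtain ⟨c₁, -, hc1, hc2⟩ := hf x g1 g2
          have h5 : n x = n₀ := congrArg Prod.fst hx3
          have h6 : f x = some c := congrArg Prod.snd hx3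
          rw [h6] at hc1
          have h7 : c = c₁ := Option.some.inj hc1
          rw [← h7] at hc2
          refine ⟨g1, hc2, k1, hx1, hx2, k2, fun l => ?_, ?_⟩
          · rw [← h5, hn]
            simp only
            exact ⟨Nat.floor_le (mul_nonneg hX0.le (le_max_left _ _)), Nat.lt_floor_add_one _⟩
          · rcases k3 with h | h
            · exact Or.inl h
            · exact Or.inr (h hx1))
      refine b1.trans (le_of_eq ?_)
      rw [hB, hV, hW]
    refine (Finset.sum_le_sum hfib).trans ?_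
    rw [Finset.sum_const, nsmul_eq_mul, card_product, Nat.cast_mul]
    apply mul_le_mul_of_nonneg_right _ (by positivity)
    exact mul_le_mul_of_nonneg_left hUc (Nat.cast_nonneg _)
  have hXE : X + 1 ≤ X + E := by rw [hE]; linarith
  have hXC : X + C ≤ X + E := by rw [hE]; linarith
  have hT4 : ((N.card : ℝ) * T.card) * B ≤ C * B * (X + E) ^ (q + (1 + s)) := by
    calc ((N.card : ℝ) * T.card) * B ≤ ((X + 1) ^ q * (C * (X + C) ^ (1 + s))) * B := by
          apply mul_le_mul_of_nonneg_right _ hB0.le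
          exact mul_le_mul hNc hT1 (Nat.cast_nonneg _) (by positivity)
      _ ≤ ((X + E) ^ q * (C * (X + E) ^ (1 + s))) * B := by
          apply mul_le_mul_of_nonneg_right _ hB0.le
          apply mul_le_mul (pow_le_pow_left₀ (by linarith) hXE _) _ (by positivity) (by positivity)
          exact mul_le_mul_of_nonneg_left (pow_le_pow_left₀ (by linarith) hXC _) hC.le
      _ = _ := by rw [pow_add]; ring
  have hpow : 1 ≤ (X + E) ^ (q + (1 + s)) := one_le_pow₀ (by linarith)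
  have hfin : (F.card : ℝ) ≤ E * (X + E) ^ (q + (1 + s)) * V := by
    have hcov' : (F.card : ℝ) ≤ ((#{x ∈ F | hr (aff x) ≤ X / 2} : ℕ) : ℝ) +
      ((#{x ∈ F | tr (P x) ≤ ((q : ℝ) - (κ + δ)) * hr (aff x)} : ℕ) : ℝ) + (Fc.card : ℝ) := by
      exact_mod_cast hcov
    obtain ⟨M, hM⟩ : ∃ M : ℝ, M = (X + E) ^ (q + (1 + s)) := ⟨_, rfl⟩
    rw [← hM] at hpow hT4 ⊢
    have e1 : D₁ * V ≤ D₁ * (M * V) := by
      apply mul_le_mul_of_nonneg_left _ hD₁.le
      nlinarith
    have e2 : D₂ * V ≤ D₂ * (M * V) := by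
      apply mul_le_mul_of_nonneg_left _ hD₂.le
      nlinarith
    have e3 : ((N.card : ℝ) * T.card) * (B * V) ≤ C * B * M * V := by
      rw [← mul_assoc]
      exact mul_le_mul_of_nonneg_right hT4 hV0.le
    have e4 : 0 ≤ (C + 1) * (M * V) := by positivity
    calc (F.card : ℝ) ≤ D₁ * (M * V) + D₂ * (M * V) + C * B * M * V := by linarith
      _ ≤ D₁ * (M * V) + D₂ * (M * V) + C * B * M * V + (C + 1) * (M * V) := by linarith
      _ = _ := by rw [hE]; ring
  calc (F.card : ℝ) ≤ E * (X + E) ^ (q + (1 + s)) * V := hfin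
    _ ≤ Real.exp (g / 4 * W) * V := mul_le_mul_of_nonneg_right hpoly hV0.le
    _ = Real.exp (g / 4 * W + ((2 - κ) * X + (q * a - 3 / 4 * g) * W)) := by
        rw [hV, ← Real.exp_add]
    _ ≤ _ := by
        apply Real.exp_le_exp.2
        linarith

end Pool.Agent.U663.SD
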